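import Pool.Agent.P.MP_f04817_lc.Ed.Iface

/-! The interval process passes to left translates of the target set. -/

set_option autoImplicit false

namespace Pool.Agent.P.MP_f04817_lc.Ed

open Finset

theorem shift_Q {A G : Type} [Group G] (π : A → G) (m : ℕ) (y x : ℕ → A) (c : ℕ) :
    Q π (fun p => if p < m then y p else x (p - m)) c = Q π y (min c m) * Q π x (c - m) := by
  induction c with
  | zero => simp [Q_zero]
  | succ c ih =>
    rw [Q_succ, ih]
    by_cases h : c < m
    · rw [if_pos h, min_eq_left h.le, min_eq_left h, Nat.sub_eq_zero_of_le h.le,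
        Nat.sub_eq_zero_of_le h, Q_zero, mul_one, mul_one, Q_succ]
    · rw [if_neg h, min_eq_right (by omega), min_eq_right (by omega),
        show c + 1 - m = c - m + 1 by omega, Q_succ, mul_assoc]

theorem shift_srt {L m s : ℕ} {cs : List (ℕ × ℕ)} (h : Srt (m + L) s cs) :
    Srt L (s - m) (cs.map fun c => (c.1 - m, c.2 - m)) := by
  induction cs generalizing s with
  | nil =>
    have : s ≤ m + L := h
    show s - m ≤ L
    omega
  | cons c cs ih => exact ⟨Nat.sub_le_sub_right h.1 m, Nat.sub_le_sub_right h.2.1 m, ih h.2.2⟩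

theorem shift_swp {A G : Type} [Group G] (π : A → G) (m : ℕ) (y x x' : ℕ → A)
    (cs cs' : List (ℕ × ℕ))
    (h : (cs.map fun c => (min c.1 m, min c.2 m)) = cs'.map fun c => (min c.1 m, min c.2 m)) :
    swp π (fun p => if p < m then y p else x (p - m)) (fun p => if p < m then y p else x' (p - m))
      cs cs' = Q π y m * swp π x x' (cs.map fun c => (c.1 - m, c.2 - m))
        (cs'.map fun c => (c.1 - m, c.2 - m)) * (Q π y m)⁻¹ := by
  have key : ∀ (u u' : ℕ → A) (c c' : ℕ), min c m = min c' m →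
      Q π y (min c m) * Q π u (c - m) * (Q π y (min c' m) * Q π u' (c' - m))⁻¹ =
        Q π y m * (Q π u (c - m) * (Q π u' (c' - m))⁻¹) * (Q π y m)⁻¹ := by
    intro u u' c c' hc
    rw [← hc]
    by_cases h1 : c < m
    · rw [Nat.sub_eq_zero_of_le h1.le, Nat.sub_eq_zero_of_le (show c' ≤ m by omega), Q_zero, Q_zero]
      group
    · rw [min_eq_right (by omega)]
      group
  unfold swp
  induction cs generalizing cs' with
  | nil => simp
  | cons c cs ih =>
    rcases cs' with _ | ⟨c', cs'⟩
    · simp at h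
    · simp only [List.map_cons, List.cons.injEq, Prod.mk.injEq] at h
      simp only [List.map_cons, List.zipWith_cons_cons, List.prod_cons]
      rw [ih cs' h.2, shift_Q, shift_Q, shift_Q, shift_Q, key x x' _ _ h.1.1, mul_assoc _ _ _⁻¹,
        key x' x _ _ h.1.2.symm]
      group

theorem shift_proc {A G : Type} [Group G] (st : Prop) (T : Set G) (π : A → G) (m : ℕ) (y : ℕ → A)
    (h : Proc st T π) : Proc False {g | Q π y m * g ∈ T} π := by
  obtain ⟨k, D, S, hS, Good, h1, h2, h3⟩ := h
  have hfin : {l : List (Fin (m + 1) × Fin (m + 1)) | l.length ≤ k}.Finite :=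
    List.finite_length_le _ _
  have := hfin.to_subtype
  refine ⟨k, D, S × {l : List (Fin (m + 1) × Fin (m + 1)) | l.length ≤ k}, inferInstance,
    fun x L σ cs => ∃ ds, Good (fun p => if p < m then y p else x (p - m)) (m + L) σ.1 ds ∧
      cs = ds.map (fun c => (c.1 - m, c.2 - m)) ∧
      (σ.2.1.map fun c => (c.1.val, c.2.val)) = ds.map fun c => (min c.1 m, min c.2 m),
    ?_, ?_, ?_⟩
  · rintro x L σ cs ⟨ds, g1, rfl, -⟩
    obtain ⟨a1, a2, -⟩ := h1 _ _ _ _ g1
    exact ⟨by simpa using a1, by simpa using shift_srt a2, False.elim⟩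
  · rintro x L σ cs x' L' cs' ⟨ds, g1, rfl, g2⟩ ⟨ds', g1', rfl, g2'⟩
    obtain ⟨a1, a2⟩ := h2 _ _ _ _ _ _ _ g1 g1'
    refine ⟨by simpa using a1, ?_⟩
    rw [shift_swp π m y x x' ds ds' (g2.symm.trans g2'), shift_Q, min_eq_right (by omega),
      Nat.add_sub_cancel_left] at a2
    simpa [mul_assoc] using a2
  · intro x L hx
    obtain ⟨τ, a1, a2⟩ := h3 (fun p => if p < m then y p else x (p - m)) (m + L) (by
      rw [shift_Q, min_eq_right (by omega), Nat.add_sub_cancel_left]
      exact hx)
    refine ⟨fun p => τ (m + p), fun t => le_trans ?_ (a1 t), fun t => ?_⟩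
    · refine card_le_card_of_injOn (fun p => m + p) (fun p hp => ?_) fun p _ q _ e => ?_
      · simp only [coe_filter, mem_range, Set.mem_ofPred_eq] at hp ⊢
        exact ⟨by omega, hp.2⟩
      · exact Nat.add_left_cancel e
    · obtain ⟨σ, ds, b1, b2⟩ := a2 t
      refine ⟨(σ, ⟨ds.map fun c => (⟨min c.1 m, by omega⟩, ⟨min c.2 m, by omega⟩),
        by simpa using (h1 _ _ _ _ b1).1⟩), _, ⟨ds, b1, rfl, by simp⟩, fun p hp => ?_⟩
      rw [b2 _ (by omega)]
      constructor
      · rintro ⟨c, c1, c2⟩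
        exact ⟨_, List.mem_map_of_mem c1, by simp only; omega⟩
      · rintro ⟨c, c1, c2⟩
        obtain ⟨d, d1, rfl⟩ := List.mem_map.1 c1
        exact ⟨d, d1, by simp only at c2; omega⟩

end Pool.Agent.P.MP_f04817_lc.Ed
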