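import Pool.Agent.P.MP_f04817_lc.Ed.Iface

/-! Step CONV. -/

set_option autoImplicit false

namespace Pool.Agent.P.MP_f04817_lc.Ed

open Finset

/-- the table of an endomorphism -/
def conv_tab {V : Type} (φ : Monoid.End (FreeMonoid V)) : V → List V :=
  fun a => FreeMonoid.toList (φ (FreeMonoid.of a))

theorem conv_flat {V : Type} (φ : Monoid.End (FreeMonoid V)) (u : List V) :
    u.flatMap (conv_tab φ) = FreeMonoid.toList (φ (FreeMonoid.ofList u)) := by
  induction u with
  | nil => simp
  | cons a u ih =>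
    rw [List.flatMap_cons, ih, FreeMonoid.ofList_cons, map_mul, FreeMonoid.toList_mul]
    rfl

theorem conv_run {V : Type} (l : List (Monoid.End (FreeMonoid V))) (u : List V) :
    run (l.map conv_tab) u = FreeMonoid.toList (l.reverse.prod (FreeMonoid.ofList u)) := by
  induction l generalizing u with
  | nil => simp [run]
  | cons φ l ih =>
    have h : run ((φ :: l).map conv_tab) u = run (l.map conv_tab) (u.flatMap (conv_tab φ)) := rfl
    rw [h, ih, conv_flat, List.reverse_cons, List.prod_append, List.prod_singleton,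
      FreeMonoid.ofList_toList]
    rfl

theorem conv_lift {V : Type} (H : Set (Monoid.End (FreeMonoid V))) (ts : List (V → List V))
    (h : ∀ t ∈ ts, t ∈ conv_tab '' H) :
    ∃ l : List (Monoid.End (FreeMonoid V)), (∀ φ ∈ l, φ ∈ H) ∧ l.map conv_tab = ts := by
  induction ts with
  | nil => exact ⟨[], by simp, rfl⟩
  | cons t ts ih =>
    obtain ⟨l, h1, h2⟩ := ih fun s hs => h s (List.mem_cons_of_mem _ hs)
    obtain ⟨φ, h3, h4⟩ := h t List.mem_cons_self
    refine ⟨φ :: l, fun ψ hψ => ?_, by rw [List.map_cons, h2, h4]⟩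
    rcases List.mem_cons.1 hψ with rfl | hψ
    · exact h3
    · exact h1 ψ hψ

theorem p_CONV :
    S_CONV := by
  intro A G _ T π hFM
  obtain ⟨V, hV, ι, ω, H, hH⟩ := hFM
  refine ⟨V, hV, ι, FreeMonoid.toList ω, conv_tab '' (H : Set (Monoid.End (FreeMonoid V))),
    ι.injective, H.finite_toSet.image _, fun w => ?_⟩
  have h1 : (w.map π).prod = FreeMonoid.lift π (FreeMonoid.ofList w) := by
    rw [FreeMonoid.lift_apply, FreeMonoid.toList_ofList]
  have h2 : FreeMonoid.toList (FreeMonoid.map ι (FreeMonoid.ofList w)) = w.map ι := by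
    rw [FreeMonoid.toList_map, FreeMonoid.toList_ofList]
  rw [h1, hH]
  constructor
  · rintro ⟨φ, hφ, h3⟩
    obtain ⟨l, hl, rfl⟩ := Submonoid.exists_list_of_mem_closure hφ
    refine ⟨l.reverse.map conv_tab, fun t ht => ?_, ?_⟩
    · obtain ⟨ψ, hψ, rfl⟩ := List.mem_map.1 ht
      exact ⟨ψ, hl ψ (List.mem_reverse.1 hψ), rfl⟩
    · rw [conv_run, List.reverse_reverse, FreeMonoid.ofList_toList, h3, h2]
  · rintro ⟨ts, hts, h3⟩
    obtain ⟨l, hl, rfl⟩ := conv_lift _ ts hts
    refine ⟨l.reverse.prod, Submonoid.list_prod_mem _ fun ψ hψ =>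
      Submonoid.subset_closure (hl ψ (List.mem_reverse.1 hψ)), ?_⟩
    rw [conv_run, FreeMonoid.ofList_toList, ← h2] at h3
    exact FreeMonoid.toList.injective h3

end Pool.Agent.P.MP_f04817_lc.Ed
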