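import Pool.Agent.P.MP_f04817_lc.Ed.Iface

/-! Step PER. -/

set_option autoImplicit false

namespace Pool.Agent.P.MP_f04817_lc.Ed

open Finset

/-- prefix sums -/
def per_h (x : ℕ → Bool) (c : ℕ) : ℤ := ∑ p ∈ range c, sg (x p)

/-- interval sums -/
def per_I (x : ℕ → Bool) (cs : List (ℕ × ℕ)) : ℤ :=
  (cs.map fun c => per_h x c.2 - per_h x c.1).sum

theorem per_Q {G : Type} [Group G] (g : G) (x : ℕ → Bool) (c : ℕ) :
    Q (fun b : Bool => g ^ sg b) x c = g ^ per_h x c := by
  induction c with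
  | zero => simp [Q_zero, per_h]
  | succ c ih => rw [Q_succ, ih, per_h, per_h, sum_range_succ, zpow_add]

theorem per_swp {G : Type} [Group G] (g : G) (x x' : ℕ → Bool) (cs cs' : List (ℕ × ℕ))
    (h : cs.length = cs'.length) :
    swp (fun b : Bool => g ^ sg b) x x' cs cs' = g ^ (per_I x' cs' - per_I x cs) := by
  induction cs generalizing cs' with
  | nil =>
    cases cs' with
    | nil => simp [swp, per_I]
    | cons c' cs' => simp at h
  | cons c cs ih =>
    cases cs' with
    | nil => simp at h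
    | cons c' cs' =>
      have h1 := ih cs' (by simpa using h)
      simp only [swp] at h1
      simp only [swp, List.zipWith_cons_cons, List.prod_cons]
      rw [h1]
      simp only [per_Q, per_I, List.map_cons, List.sum_cons, ← zpow_neg, ← zpow_add]
      congr 1
      ring

open Classical in
theorem per_cov (x : ℕ → Bool) (L : ℕ) (cs : List (ℕ × ℕ)) (s : ℕ) (h : Srt L s cs) :
    ∑ p ∈ range L, (if Cov cs p then sg (x p) else 0) = per_I x cs := by
  induction cs generalizing s with
  | nil => simp [cov_nil, per_I]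
  | cons c cs ih =>
    have h1 : ∀ p, (if Cov (c :: cs) p then sg (x p) else 0) =
        (if p ∈ Ico c.1 c.2 then sg (x p) else 0) + (if Cov cs p then sg (x p) else 0) := by
      intro p
      simp only [cov_cons, mem_Ico]
      by_cases ha : c.1 ≤ p ∧ p < c.2
      · have hb : ¬ Cov cs p := by
          rintro ⟨d, hd, hd1, -⟩
          have := (h.2.2.mem hd).1
          omega
        simp [ha, hb]
      · simp [ha]
    rw [sum_congr rfl fun p _ => h1 p, sum_add_distrib, ih _ h.2.2, sum_ite_mem]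
    have h2 : range L ∩ Ico c.1 c.2 = Ico c.1 c.2 := by
      refine inter_eq_right.2 fun p hp => ?_
      have := h.2.2.le
      rw [mem_Ico] at hp
      rw [mem_range]
      omega
    rw [h2, sum_Ico_eq_sub _ h.2.1]
    simp [per_I, per_h]

theorem per_step (z : ℕ → Bool) (L D : ℕ) (τ : ℕ → ℕ) (hF : Fib L D τ) (t : ℕ) :
    |∑ p ∈ (range L).filter (fun p => t < τ p), sg (z p) -
      ∑ p ∈ (range L).filter (fun p => t + 1 < τ p), sg (z p)| ≤ D := by
  have h1 : ∑ p ∈ (range L).filter (fun p => t < τ p), sg (z p) -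
      ∑ p ∈ (range L).filter (fun p => t + 1 < τ p), sg (z p) =
      ∑ p ∈ (range L).filter (fun p => τ p = t + 1), sg (z p) := by
    simp only [sum_filter, ← sum_sub_distrib]
    refine sum_congr rfl fun p _ => ?_
    split_ifs <;> omega
  rw [h1]
  refine (abs_sum_le_sum_abs _ _).trans ?_
  have h2 : ∀ p, |sg (z p)| = 1 := fun p => by cases z p <;> simp [sg]
  simp only [h2, sum_const, nsmul_eq_mul, mul_one]
  exact_mod_cast hF (t + 1)

theorem per_cross (B : ℕ → ℤ) (D n : ℤ) (hs : ∀ t, B t - B (t + 1) ≤ D) (t m : ℕ)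
    (h1 : n ≤ B t) (h2 : B (t + m) ≤ n + D) : ∃ r, n ≤ B r ∧ B r ≤ n + D := by
  induction m generalizing t with
  | zero => exact ⟨t, h1, h2⟩
  | succ m ih =>
    by_cases h3 : B t ≤ n + D
    · exact ⟨t, h1, h3⟩
    · refine ih (t + 1) (by linarith [hs t]) ?_
      rwa [Nat.add_right_comm, Nat.add_assoc]

theorem p_PER (hZED : S_ZED) :
    S_PER := by
  classical
  rintro G _ T g ⟨k, D, S, hS, Good, hP1, hP2, hP3⟩
  let U : S → Set ℤ := fun σ => {u | ∃ x L cs, Good x L σ cs ∧ u = per_I x cs}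
  let Gp : S → Set ℤ := fun σ => {u | ∃ x L cs, Good x L σ cs ∧ u = per_h x L - per_I x cs}
  have hswap : ∀ σ, ∀ γ ∈ Gp σ, ∀ u ∈ U σ, g ^ (γ + u) ∈ T := by
    rintro σ _ ⟨x, L, cs, hg, rfl⟩ _ ⟨x', L', cs', hg', rfl⟩
    obtain ⟨h1, h2⟩ := hP2 x L σ cs x' L' cs' hg hg'
    rw [per_swp g x x' cs cs' h1, per_Q, ← zpow_add] at h2
    convert h2 using 2
    ring
  have hwin : ∀ s : ℤ, g ^ s ∈ T →
      (∀ n : ℕ, ∃ σ, ∃ j : Fin (D + 1), (n : ℤ) + j.1 ∈ U σ ∧ s - (n + j.1) ∈ Gp σ) ∨
      (∀ n : ℕ, ∃ σ, ∃ j : Fin (D + 1), -((n : ℤ) + j.1) ∈ U σ ∧ s + (n + j.1) ∈ Gp σ) := by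
    intro s hs
    by_contra hcon
    rw [not_or, not_forall, not_forall] at hcon
    obtain ⟨⟨n1, hn1⟩, ⟨n2, hn2⟩⟩ := hcon
    obtain ⟨z, L, hz, hZ⟩ := hZED (2 * k) D (n1 + n2) s
    obtain ⟨τ, hF, hτ⟩ := hP3 z L (by rw [per_Q, per_h, hz]; exact hs)
    set B : ℕ → ℤ := fun t => ∑ p ∈ (range L).filter (fun p => t < τ p), sg (z p) with hB
    have hBA : ∀ t, ∃ σ, B t ∈ U σ ∧ s - B t ∈ Gp σ := by
      intro t
      obtain ⟨σ, cs, hg, hc⟩ := hτ t
      have h1 : B t = per_I z cs := by
        rw [← per_cov z L cs 0 (hP1 z L σ cs hg).2.1, hB]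
        simp only [sum_filter]
        refine sum_congr rfl fun p hp => ?_
        simp only [hc p (mem_range.1 hp)]
      exact ⟨σ, ⟨z, L, cs, hg, h1⟩, z, L, cs, hg, by rw [h1, per_h, hz]⟩
    have hend : ∀ t, B (t + (range L).sup τ) = 0 := by
      intro t
      refine sum_eq_zero fun p hp => ?_
      rw [mem_filter] at hp
      have := le_sup (f := τ) hp.1
      omega
    have hst : ∀ t, |B t - B (t + 1)| ≤ D := fun t => per_step z L D τ hF t
    refine hZ τ hF (fun t => ?_) fun t => ?_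
    · obtain ⟨σ, cs, hg, hc⟩ := hτ t
      have := (hP1 z L σ cs hg).1
      exact (bd_card_le hc).trans (by omega)
    · change |B t| ≤ _
      rw [abs_le]
      push_cast
      constructor
      · by_contra hlt
        obtain ⟨r, hr1, hr2⟩ := per_cross (fun t => -B t) D n2
          (fun t => by linarith [(abs_le.1 (hst t)).1]) t ((range L).sup τ) (by omega)
          (by simp only [hend]; omega)
        obtain ⟨σ, h1, h2⟩ := hBA r
        refine hn2 ⟨σ, ⟨(-B r - n2).toNat, by omega⟩, ?_, ?_⟩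
        · convert h1 using 1
          simp only
          omega
        · convert h2 using 1
          simp only
          omega
      · by_contra hlt
        obtain ⟨r, hr1, hr2⟩ := per_cross B D n1
          (fun t => (abs_le.1 (hst t)).2) t ((range L).sup τ) (by omega)
          (by simp only [hend]; omega)
        obtain ⟨σ, h1, h2⟩ := hBA r
        refine hn1 ⟨σ, ⟨(B r - n1).toNat, by omega⟩, ?_, ?_⟩
        · convert h1 using 1
          simp only
          omega
        · convert h2 using 1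
          simp only
          omega
  let col : ℕ → (S → Fin (D + 1) → Prop × Prop) := fun n σ j =>
    ((n : ℤ) + j.1 ∈ U σ, -((n : ℤ) + j.1) ∈ U σ)
  have hmove : ∀ a b : ℕ, col a = col b → ∀ s : ℤ, g ^ s ∈ T → g ^ (s + (b - a)) ∈ T := by
    intro a b hab s hs
    rcases hwin s hs with h | h
    · obtain ⟨σ, j, h1, h2⟩ := h a
      have h3 : ((a : ℤ) + j.1 ∈ U σ) = ((b : ℤ) + j.1 ∈ U σ) :=
        congrArg (fun c => (c σ j).1) hab
      have h4 := hswap σ _ h2 _ (h3 ▸ h1)
      convert h4 using 2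
      ring
    · obtain ⟨σ, j, h1, h2⟩ := h b
      have h3 : (-((b : ℤ) + j.1) ∈ U σ) = (-((a : ℤ) + j.1) ∈ U σ) :=
        congrArg (fun c => (c σ j).2) hab.symm
      have h4 := hswap σ _ h2 _ (h3 ▸ h1)
      convert h4 using 2
      ring
  obtain ⟨a, b, hne, hab⟩ := Finite.exists_ne_map_eq_of_infinite col
  wlog hlt : a < b generalizing a b
  · exact this b a hne.symm hab.symm (by omega)
  refine ⟨b - a, by omega, fun n => ⟨hmove a b hab n, fun h => ?_⟩⟩
  have h1 := hmove b a hab.symm _ h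
  convert h1 using 2
  ring

end Pool.Agent.P.MP_f04817_lc.Ed
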