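import Pool.Agent.P.MP_f04817_lc.Ed.Iface

/-! Step PROC. -/

set_option autoImplicit false

namespace Pool.Agent.P.MP_f04817_lc.Ed

open Finset

section Run

variable {V : Type}

theorem proc_run_append (ts : List (V → List V)) (u v : List V) :
    run ts (u ++ v) = run ts u ++ run ts v := by
  induction ts generalizing u v with
  | nil => rfl
  | cons h ts ih =>
    show run ts ((u ++ v).flatMap h) = run ts (u.flatMap h) ++ run ts (v.flatMap h)
    rw [List.flatMap_append, ih]

theorem proc_run_nil (ts : List (V → List V)) : run ts ([] : List V) = [] := by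
  induction ts with
  | nil => rfl
  | cons h ts ih => exact ih

theorem proc_run_flat (ts : List (V → List V)) (u : List V) :
    run ts u = u.flatMap fun A => run ts [A] := by
  induction u with
  | nil => exact proc_run_nil ts
  | cons A u ih => rw [List.flatMap_cons, ← ih, ← proc_run_append]; rfl

theorem proc_run_app (ts ts' : List (V → List V)) (u : List V) :
    run (ts ++ ts') u = run ts' (run ts u) := List.foldl_append ..

/-- the list `l` is read in `W` from position `s` on -/
def Rd (W : ℕ → V) : ℕ → List V → Prop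
  | _, [] => True
  | s, A :: l => A = W s ∧ Rd W (s + 1) l

theorem Rd.append {W : ℕ → V} {s : ℕ} {l l' : List V} (h : Rd W s (l ++ l')) :
    Rd W s l ∧ Rd W (s + l.length) l' := by
  induction l generalizing s with
  | nil => exact ⟨trivial, h⟩
  | cons A l ih =>
    have := ih h.2
    refine ⟨⟨h.1, this.1⟩, ?_⟩
    rw [List.length_cons, ← Nat.add_assoc, Nat.add_right_comm]
    exact this.2

theorem Rd.val {G : Type} [Group G] (f : V → G) {W : ℕ → V} {s : ℕ} {l : List V} (h : Rd W s l) :
    Q f W s * (l.map f).prod = Q f W (s + l.length) := by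
  induction l generalizing s with
  | nil => simp
  | cons A l ih =>
    rw [List.map_cons, List.prod_cons, ← mul_assoc, h.1, ← Q_succ, ih h.2, List.length_cons,
      Nat.add_right_comm, Nat.add_assoc]

theorem Rd.same {W : ℕ → V} {s s' : ℕ} {l : List V} (h : Rd W s l) (h' : Rd W s' l) :
    ∀ j < l.length, W (s + j) = W (s' + j) := by
  induction l generalizing s s' with
  | nil => simp
  | cons A l ih =>
    intro j hj
    rcases j with _ | j
    · exact h.1.symm.trans h'.1
    · have := ih h.2 h'.2 j (by simpa using hj)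
      rwa [Nat.add_right_comm, Nat.add_right_comm s'] at this

theorem Rd.mem {W : ℕ → V} {s : ℕ} {l : List V} (h : Rd W s l) : ∀ B ∈ l, ∃ j, B = W j := by
  induction l generalizing s with
  | nil => simp
  | cons A l ih =>
    intro B hB
    rcases List.mem_cons.1 hB with rfl | hB
    · exact ⟨s, h.1⟩
    · exact ih h.2 B hB

theorem proc_rd_range (W : ℕ → V) (s n : ℕ) : Rd W s ((List.range' s n).map W) := by
  induction n generalizing s with
  | zero => trivial
  | succ n ih => exact ⟨rfl, ih (s + 1)⟩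

variable (ρ : ℕ → ℕ) (ψ : V → List V)

/-- the big occurrences: letter, start, end -/
def bigs : ℕ → List V → List (V × ℕ × ℕ)
  | _, [] => []
  | s, A :: u =>
    if ρ s + 2 ≤ ρ (s + (ψ A).length) then
      (A, s, s + (ψ A).length) :: bigs (s + (ψ A).length) u
    else bigs (s + (ψ A).length) u

/-- the letter has a small occurrence -/
def sml : ℕ → List V → V → Prop
  | _, [], _ => False
  | s, B :: u, A =>
    (B = A ∧ ¬ ρ s + 2 ≤ ρ (s + (ψ B).length)) ∨ sml (s + (ψ B).length) u A

/-- the intervals of real positions -/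
def cuts (s : ℕ) (u : List V) : List (ℕ × ℕ) :=
  (bigs ρ ψ s u).map fun o => (ρ o.2.1, ρ o.2.2 - 1)

variable {ρ ψ}

theorem proc_bigs_mem {s : ℕ} {u : List V} {o : V × ℕ × ℕ} (ho : o ∈ bigs ρ ψ s u) :
    o.2.2 = o.2.1 + (ψ o.1).length ∧ s ≤ o.2.1 ∧ ρ o.2.1 + 2 ≤ ρ o.2.2 ∧
      o.2.2 ≤ s + (u.flatMap ψ).length ∧
      ∀ W : ℕ → V, Rd W s (u.flatMap ψ) → Rd W o.2.1 (ψ o.1) := by
  induction u generalizing s with
  | nil => simp [bigs] at ho
  | cons A u ih =>
    have key : o ∈ bigs ρ ψ (s + (ψ A).length) u →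
        o.2.2 = o.2.1 + (ψ o.1).length ∧ s ≤ o.2.1 ∧ ρ o.2.1 + 2 ≤ ρ o.2.2 ∧
        o.2.2 ≤ s + ((A :: u).flatMap ψ).length ∧
        ∀ W : ℕ → V, Rd W s ((A :: u).flatMap ψ) → Rd W o.2.1 (ψ o.1) := fun ho => by
      obtain ⟨h1, h2, h3, h4, h5⟩ := ih ho
      rw [List.flatMap_cons, List.length_append]
      exact ⟨h1, by omega, h3, by omega, fun W hW => h5 W hW.append.2⟩
    unfold bigs at ho
    split_ifs at ho with hb
    · rcases List.mem_cons.1 ho with rfl | ho
      · rw [List.flatMap_cons, List.length_append]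
        exact ⟨rfl, le_rfl, hb, by simp only; omega, fun W hW => hW.append.1⟩
      · exact key ho
    · exact key ho

theorem proc_sml_rd {s : ℕ} {u : List V} {A : V} (h : sml ρ ψ s u A) {W : ℕ → V}
    (hW : Rd W s (u.flatMap ψ)) :
    ∃ s', Rd W s' (ψ A) ∧ ¬ ρ s' + 2 ≤ ρ (s' + (ψ A).length) := by
  induction u generalizing s with
  | nil => exact h.elim
  | cons B u ih =>
    rw [List.flatMap_cons] at hW
    rcases h with ⟨rfl, h⟩ | h
    · exact ⟨s, hW.append.1, h⟩
    · exact ih h hW.append.2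

theorem proc_mem_cases {s : ℕ} {u : List V} {A : V} (h : A ∈ u) :
    sml ρ ψ s u A ∨ ∃ o ∈ bigs ρ ψ s u, o.1 = A := by
  induction u generalizing s with
  | nil => simp at h
  | cons B u ih =>
    unfold bigs sml
    rcases List.mem_cons.1 h with rfl | h
    · split_ifs with hb
      · exact Or.inr ⟨_, List.mem_cons_self, rfl⟩
      · exact Or.inl (Or.inl ⟨rfl, hb⟩)
    · rcases ih (s := s + (ψ B).length) h with h | ⟨o, ho, h⟩
      · exact Or.inl (Or.inr h)
      · refine Or.inr ⟨o, ?_, h⟩
        split_ifs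
        · exact List.mem_cons_of_mem _ ho
        · exact ho

theorem proc_lemA {G : Type} [Group G] (g f : V → G) {W : ℕ → V} {s : ℕ} {u : List V}
    (hf : ∀ A, sml ρ ψ s u A → f A = ((ψ A).map g).prod) (hW : Rd W s (u.flatMap ψ)) :
    Q g W s * (u.map f).prod =
      ((bigs ρ ψ s u).map fun o => Q g W o.2.1 * f o.1 * (Q g W o.2.2)⁻¹).prod *
        Q g W (s + (u.flatMap ψ).length) := by
  induction u generalizing s with
  | nil => simp [bigs]
  | cons A u ih =>
    rw [List.flatMap_cons] at hW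
    have h1 := ih (s := s + (ψ A).length) (fun B hB => hf B (Or.inr hB)) hW.append.2
    rw [List.flatMap_cons, List.length_append, ← Nat.add_assoc, List.map_cons, List.prod_cons]
    unfold bigs
    split_ifs with hb
    · rw [List.map_cons, List.prod_cons, mul_assoc, ← h1]
      simp only [mul_assoc, inv_mul_cancel_left]
    · rw [← h1, hf A (Or.inl ⟨rfl, hb⟩), ← mul_assoc, hW.append.1.val g]

theorem proc_nodup {W : ℕ → V} {s : ℕ} {u : List V}
    (hU : ∀ s s' m, s < s' → (∀ j < m, W (s + j) = W (s' + j)) → ρ (s + m) < ρ s + 2)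
    (hW : Rd W s (u.flatMap ψ)) : ((bigs ρ ψ s u).map Prod.fst).Nodup := by
  induction u generalizing s with
  | nil => simp [bigs]
  | cons A u ih =>
    rw [List.flatMap_cons] at hW
    have h1 := ih hW.append.2
    unfold bigs
    split_ifs with hb
    · rw [List.map_cons, List.nodup_cons]
      refine ⟨fun hm => ?_, h1⟩
      obtain ⟨o, ho, rfl⟩ := List.mem_map.1 hm
      obtain ⟨-, h2, -, -, h5⟩ := proc_bigs_mem ho
      have h0 : (ψ o.1).length ≠ 0 := fun h0 => by
        rw [h0] at hb
        simp only [Nat.add_zero] at hb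
        omega
      have := hU s o.2.1 _ (by omega) (hW.append.1.same (h5 W hW.append.2))
      omega
    · exact h1

theorem proc_srt (hm : Monotone ρ) {s : ℕ} {u : List V} {r : ℕ} (hr : r ≤ ρ s) :
    Srt (ρ (s + (u.flatMap ψ).length)) r (cuts ρ ψ s u) ∧
      (cuts ρ ψ s u).Pairwise fun c d => c.2 < d.1 := by
  induction u generalizing s r with
  | nil => exact ⟨hr, List.Pairwise.nil⟩
  | cons A u ih =>
    rw [List.flatMap_cons, List.length_append, ← Nat.add_assoc]
    unfold cuts bigs
    split_ifs with hb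
    · have h1 := ih (s := s + (ψ A).length) (r := ρ (s + (ψ A).length) - 1) (Nat.sub_le _ _)
      refine ⟨⟨hr, by simp only; omega, h1.1⟩, List.Pairwise.cons ?_ h1.2⟩
      intro d hd
      obtain ⟨o, ho, rfl⟩ := List.mem_map.1 hd
      have := hm (proc_bigs_mem ho).2.1
      simp only
      omega
    · exact ih (hr.trans (hm (Nat.le_add_right _ _)))

theorem proc_cov_bd (hm : Monotone ρ) {s p : ℕ} {u : List V} (h : Cov (cuts ρ ψ s u) p) :
    ρ s ≤ p ∧ p + 1 < ρ (s + (u.flatMap ψ).length) := by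
  obtain ⟨c, hc, h1, h2⟩ := h
  obtain ⟨o, ho, rfl⟩ := List.mem_map.1 hc
  obtain ⟨-, h3, -, h4, -⟩ := proc_bigs_mem ho
  have h5 := hm h3
  have h6 := hm h4
  simp only at h1 h2
  omega

theorem proc_cov_cons {s p : ℕ} {A : V} {u : List V} :
    Cov (cuts ρ ψ s (A :: u)) p ↔
      (ρ s ≤ p ∧ p + 1 < ρ (s + (ψ A).length)) ∨ Cov (cuts ρ ψ (s + (ψ A).length) u) p := by
  unfold cuts
  rw [bigs]
  split_ifs with hb
  · rw [List.map_cons, cov_cons]
    exact or_congr_left (by simp only; omega)
  · exact ⟨Or.inr, fun h => h.resolve_left (by omega)⟩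

theorem proc_cov_append {s p : ℕ} {u v : List V} :
    Cov (cuts ρ ψ s (u ++ v)) p ↔
      Cov (cuts ρ ψ s u) p ∨ Cov (cuts ρ ψ (s + (u.flatMap ψ).length) v) p := by
  induction u generalizing s with
  | nil => simp [cuts, bigs, cov_nil]
  | cons A u ih =>
    rw [List.cons_append, proc_cov_cons, proc_cov_cons, ih, List.flatMap_cons, List.length_append,
      ← Nat.add_assoc, or_assoc]

theorem proc_lemB (s : ℕ) (u : List V) : ∃ Z : Finset ℕ, Z.card ≤ u.length ∧
    ∀ p, ρ s ≤ p → p < ρ (s + (u.flatMap ψ).length) → Cov (cuts ρ ψ s u) p ∨ p ∈ Z := by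
  induction u generalizing s with
  | nil => exact ⟨∅, le_rfl, fun p h1 h2 => absurd h2 (by simpa using h1)⟩
  | cons A u ih =>
    obtain ⟨Z, h1, h2⟩ := ih (s + (ψ A).length)
    refine ⟨insert (ρ (s + (ψ A).length) - 1) Z, (card_insert_le _ _).trans (by simpa using h1),
      fun p h3 h4 => ?_⟩
    rw [List.flatMap_cons, List.length_append, ← Nat.add_assoc] at h4
    rw [proc_cov_cons, mem_insert]
    by_cases h5 : ρ (s + (ψ A).length) ≤ p
    · rcases h2 p h5 h4 with h | h
      · exact Or.inl (Or.inr h)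
      · exact Or.inr (Or.inr h)
    · by_cases h6 : p + 1 < ρ (s + (ψ A).length)
      · exact Or.inl (Or.inl ⟨h3, h6⟩)
      · exact Or.inr (Or.inl (by omega))

theorem proc_lemC (hm : Monotone ρ) {ψ' h : V → List V} (hψ : ∀ A, ψ A = (h A).flatMap ψ')
    {D : ℕ} (hD : ∀ A, (h A).length ≤ D) (s : ℕ) (u : List V) :
    (∀ p, Cov (cuts ρ ψ' s (u.flatMap h)) p → Cov (cuts ρ ψ s u) p) ∧
    ∃ Z : Finset ℕ, Z.card ≤ D * (bigs ρ ψ s u).length ∧
      ∀ p, Cov (cuts ρ ψ s u) p → Cov (cuts ρ ψ' s (u.flatMap h)) p ∨ p ∈ Z := by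
  induction u generalizing s with
  | nil => exact ⟨fun p hp => hp, ∅, by simp, fun p hp => Or.inl hp⟩
  | cons A u ih =>
    obtain ⟨h1, Z, h2, h3⟩ := ih (s + (ψ A).length)
    refine ⟨fun p hp => ?_, ?_⟩
    · rw [List.flatMap_cons, proc_cov_append, ← hψ] at hp
      rw [proc_cov_cons]
      refine hp.imp (fun hp => ?_) (h1 p)
      have := proc_cov_bd hm hp
      rwa [← hψ] at this
    · obtain ⟨Z', h4, h5⟩ := proc_lemB (ρ := ρ) (ψ := ψ') s (h A)
      rw [← hψ] at h5
      by_cases hb : ρ s + 2 ≤ ρ (s + (ψ A).length)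
      · refine ⟨Z' ∪ Z, (card_union_le _ _).trans ?_, fun p hp => ?_⟩
        · rw [bigs, if_pos hb, List.length_cons, Nat.mul_succ]
          have := hD A
          omega
        · rw [List.flatMap_cons, proc_cov_append, ← hψ, mem_union]
          rcases proc_cov_cons.1 hp with hp | hp
          · have := h5 p hp.1 (by omega)
            tauto
          · have := h3 p hp
            tauto
      · refine ⟨Z, by rwa [bigs, if_neg hb], fun p hp => ?_⟩
        rw [List.flatMap_cons, proc_cov_append, ← hψ]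
        rcases proc_cov_cons.1 hp with hp | hp
        · omega
        · have := h3 p hp
          tauto

theorem proc_end (h1 : ∀ c, ρ (c + 1) ≤ ρ c + 1) (s p : ℕ) (u : List V) :
    ¬ Cov (cuts ρ (fun A => [A]) s u) p := by
  rintro ⟨c, hc, -⟩
  obtain ⟨o, ho, rfl⟩ := List.mem_map.1 hc
  obtain ⟨h2, -, h3, -⟩ := proc_bigs_mem ho
  have := h1 o.2.1
  rw [h2] at h3
  simp only [List.length_singleton] at h3
  omega

end Run

theorem proc_tau (C : ℕ → ℕ → Prop) (L D n : ℕ) (h0 : ∀ p, ¬ C n p)
    (h1 : ∀ t p, C (t + 1) p → C t p)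
    (h2 : ∃ Z : Finset ℕ, Z.card ≤ D ∧ ∀ p < L, C 0 p ∨ p ∈ Z)
    (h3 : ∀ t, ∃ Z : Finset ℕ, Z.card ≤ D ∧ ∀ p, C t p → C (t + 1) p ∨ p ∈ Z) :
    ∃ τ : ℕ → ℕ, Fib L D τ ∧ ∀ t p, t < τ p ↔ C t p := by
  classical
  have hex : ∀ p, ∃ t, ¬ C t p := fun p => ⟨n, h0 p⟩
  have hanti : ∀ p t t', t ≤ t' → C t' p → C t p := by
    intro p t t' h
    induction t', h using Nat.le_induction with
    | base => exact id
    | succ t' _ ih => exact fun hc => ih (h1 _ _ hc)
  have key : ∀ t p, t < Nat.find (hex p) ↔ C t p := fun t p =>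
    ⟨fun h => not_not.1 (Nat.find_min (hex p) h), fun h => by
      by_contra hn
      exact Nat.find_spec (hex p) (hanti p _ _ (not_lt.1 hn) h)⟩
  refine ⟨fun p => Nat.find (hex p), fun t => ?_, key⟩
  rcases t with _ | t
  · obtain ⟨Z, hZ, h⟩ := h2
    refine (card_le_card fun p hp => ?_).trans hZ
    simp only [mem_filter, mem_range] at hp
    exact (h p hp.1).resolve_left fun hc => by have := (key 0 p).2 hc; omega
  · obtain ⟨Z, hZ, h⟩ := h3 t
    refine (card_le_card fun p hp => ?_).trans hZ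
    simp only [mem_filter, mem_range] at hp
    exact (h p ((key t p).1 (by omega))).resolve_left fun hc => by
      have := (key (t + 1) p).2 hc
      omega

theorem proc_zip {α β γ δ : Type} (c : α → β) (c' : α → β) (k k' : α → γ) (F : α → δ)
    (Gz : γ → γ → δ) (B B' : List α) (h : B.map c = B'.map c')
    (hF : ∀ o ∈ B, ∀ o' ∈ B', c o = c' o' → F o = Gz (k o) (k' o')) :
    B.map F = List.zipWith Gz (B.map k) (B'.map k') := by
  induction B generalizing B' with
  | nil => simp
  | cons o B ih =>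
    rcases B' with _ | ⟨o', B'⟩
    · simp at h
    · simp only [List.map_cons, List.cons.injEq] at h
      simp only [List.map_cons, List.zipWith_cons_cons]
      rw [hF o List.mem_cons_self o' List.mem_cons_self h.1, ih B' h.2 fun a ha a' ha' =>
        hF a (List.mem_cons_of_mem _ ha) a' (List.mem_cons_of_mem _ ha')]

theorem proc_lift {A V : Type} (ι : A → V) (l : List V) (h : ∀ B ∈ l, ∃ y, B = ι y) :
    ∃ w : List A, l = w.map ι := by
  induction l with
  | nil => exact ⟨[], rfl⟩
  | cons B l ih =>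
    obtain ⟨y, rfl⟩ := h B List.mem_cons_self
    obtain ⟨w, rfl⟩ := ih fun C hC => h C (List.mem_cons_of_mem _ hC)
    exact ⟨y :: w, rfl⟩

theorem proc_prod_flat {V G : Type} [Group G] (g : V → G) (ψ : V → List V) (u : List V) :
    ((u.flatMap ψ).map g).prod = (u.map fun A => ((ψ A).map g).prod).prod := by
  induction u with
  | nil => simp
  | cons A u ih => rw [List.flatMap_cons, List.map_append, List.prod_append, ih]; simp

theorem proc_fin3 {i j : ℕ} (hi : i ≤ 2) (hj : j ≤ 2) (h : Fin.ofNat 3 i = Fin.ofNat 3 j) :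
    i = j := by
  have := congrArg Fin.val h
  simp only [Fin.val_ofNat] at this
  omega

open Classical in
theorem p_PROC (hENC : S_ENC) :
    S_PROC := by
  rintro A G _ T π a b hab hπ ⟨V, hV, ι, ω, H, hι, hH, hL⟩
  choose pos ρ e W hρ0 hρ1 hρ2 hpos he hP hU using hENC A G π a b hab hπ
  have : Finite A := Finite.of_injective ι hι
  have := Fintype.ofFinite V
  have hmono : ∀ x, Monotone (ρ x) := fun x => monotone_nat_of_le_succ (hρ1 x)
  obtain ⟨D0, hD0⟩ : ∃ D0, ∀ h ∈ H, ∀ B, (h B).length ≤ D0 := by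
    obtain ⟨D0, h⟩ := ((hH.prod (Set.finite_univ (α := V))).image
      fun c => (c.1 c.2).length).bddAbove
    exact ⟨D0, fun t ht B => h ⟨(t, B), ⟨ht, trivial⟩, rfl⟩⟩
  set g : V → G := Function.extend ι π 1 with hg
  have hgι : ∀ y, g (ι y) = π y := fun y => hι.extend_apply π 1 y
  have hPg : ∀ x c, Q g (fun j => ι (W x j)) c = Q (opt π) x (ρ x c) * π a ^ e x c := by
    intro x c
    rw [← hP]
    induction c with
    | zero => rfl
    | succ c ih => rw [Q_succ, Q_succ, ih, hgι]
  set F : Set G := Set.range fun c : Fin 3 × Option A × Fin 3 =>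
    (π a ^ c.1.val)⁻¹ * opt π c.2.1 * π a ^ c.2.2.val with hF
  set St : Set (List (V × Fin 3 × Fin 3 × Option A) × (V → Option G)) :=
    {l | l.length ≤ Fintype.card V} ×ˢ {φ | ∀ B, φ B ∈ insert none (some '' F)} with hSt
  have hStf : St.Finite := (List.finite_length_le _ _).prod
    (Set.Finite.pi' fun _ => ((Set.finite_range _).image _).insert _)
  let code : (ℕ → Option A) → V × ℕ × ℕ → V × Fin 3 × Fin 3 × Option A := fun x o =>
    (o.1, Fin.ofNat 3 (e x o.2.1), Fin.ofNat 3 (e x o.2.2), x (ρ x o.2.2 - 1))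
  let state : (ℕ → Option A) → (V → List V) → List V →
      List (V × Fin 3 × Fin 3 × Option A) × (V → Option G) := fun x ψ u =>
    ((bigs (ρ x) ψ 0 u).map (code x),
      fun B => if sml (ρ x) ψ 0 u B then some ((ψ B).map g).prod else none)
  have hlen : ∀ x ψ u, Rd (fun j => ι (W x j)) 0 (List.flatMap ψ u) →
      (bigs (ρ x) ψ 0 u).length ≤ Fintype.card V := fun x ψ u h => by
    have := (proc_nodup (ρ := ρ x) (fun s s' m hs hj => hU x s s' m hs fun j h =>
      hι (hj j h)) h).length_le_card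
    rwa [List.length_map] at this
  have hstate : ∀ x ψ u, Rd (fun j => ι (W x j)) 0 (List.flatMap ψ u) → state x ψ u ∈ St := by
    intro x ψ u h
    refine ⟨by simpa [state] using hlen x ψ u h, fun B => ?_⟩
    simp only [state]
    split_ifs with hs
    · obtain ⟨s, h1, h2⟩ := proc_sml_rd hs h
      have h3 := h1.val g
      rw [hPg, hPg] at h3
      have h4 := hmono x (Nat.le_add_right s (ψ B).length)
      have h5 := he x s
      have h6 := he x (s + (ψ B).length)
      refine Set.mem_insert_of_mem _ ⟨_, ?_, rfl⟩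
      rcases (by omega : ρ x (s + (ψ B).length) = ρ x s ∨
        ρ x (s + (ψ B).length) = ρ x s + 1) with h7 | h7
      · refine ⟨(⟨e x s, by omega⟩, none, ⟨e x (s + (ψ B).length), by omega⟩), ?_⟩
        rw [h7, mul_assoc, mul_left_cancel_iff] at h3
        simp only [opt, mul_one]
        rw [← h3, inv_mul_cancel_left]
      · refine ⟨(⟨e x s, by omega⟩, x (ρ x s), ⟨e x (s + (ψ B).length), by omega⟩), ?_⟩
        rw [h7, Q_succ, mul_assoc, mul_assoc, mul_left_cancel_iff] at h3
        simp only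
        rw [mul_assoc, ← h3, inv_mul_cancel_left]
    · exact Set.mem_insert _ _
  refine ⟨Fintype.card V, D0 * Fintype.card V + ω.length, St, hStf,
    fun x L σ cs => ∃ ts ts' : List (V → List V), (∀ h ∈ ts, h ∈ H) ∧ (∀ h ∈ ts', h ∈ H) ∧
      Rd (fun j => ι (W x j)) 0 ((run ts ω).flatMap fun B => run ts' [B]) ∧
      ((run ts ω).flatMap fun B => run ts' [B]).length = pos x L ∧
      cs = cuts (ρ x) (fun B => run ts' [B]) 0 (run ts ω) ∧
      σ.1 = state x (fun B => run ts' [B]) (run ts ω), ?_, ?_, ?_⟩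
  · rintro x L σ cs ⟨ts, ts', -, -, h1, h2, rfl, -⟩
    have h3 := proc_srt (ψ := fun B => run ts' [B]) (hmono x) (s := 0) (u := run ts ω) (r := 0)
      (Nat.zero_le _)
    rw [Nat.zero_add, h2, (hpos x L).1] at h3
    refine ⟨by simpa [cuts] using hlen x _ _ h1, h3.1, fun _ => ⟨fun c hc => ?_, h3.2⟩⟩
    obtain ⟨o, ho, rfl⟩ := List.mem_map.1 hc
    have := (proc_bigs_mem ho).2.2.1
    simp only
    omega
  · rintro x L σ cs x' L' cs' ⟨t1, t2, a1, -, a3, a4, rfl, a6⟩ ⟨t1', t2', -, b2, b3, -, rfl, b6⟩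
    set ψ : V → List V := fun B => run t2 [B] with hψ
    set ψ' : V → List V := fun B => run t2' [B] with hψ'
    set u := run t1 ω with hu
    set u' := run t1' ω with hu'
    have hs := a6.symm.trans b6
    have hs1 : (bigs (ρ x) ψ 0 u).map (code x) = (bigs (ρ x') ψ' 0 u').map (code x') :=
      congrArg Prod.fst hs
    have hs2 : ∀ B, sml (ρ x) ψ 0 u B →
        sml (ρ x') ψ' 0 u' B ∧ ((ψ' B).map g).prod = ((ψ B).map g).prod := by
      intro B hB
      have := congrFun (congrArg Prod.snd hs) B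
      simp only [state, if_pos hB] at this
      split_ifs at this with hB'
      exact ⟨hB', (Option.some.inj this).symm⟩
    refine ⟨by simpa [cuts] using congrArg List.length hs1, ?_⟩
    obtain ⟨w, hw⟩ : ∃ w : List A, u.flatMap ψ' = w.map ι := by
      refine proc_lift ι _ fun C hC => ?_
      obtain ⟨B, hB, hC⟩ := List.mem_flatMap.1 hC
      obtain ⟨s, hs⟩ : ∃ s, Rd (fun j => ι (W x' j)) s (ψ' B) := by
        rcases proc_mem_cases (ρ := ρ x) (ψ := ψ) (s := 0) hB with h | ⟨o, ho, rfl⟩
        · obtain ⟨s, h, -⟩ := proc_sml_rd (hs2 B h).1 b3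
          exact ⟨s, h⟩
        · have h1 : code x o ∈ (bigs (ρ x') ψ' 0 u').map (code x') :=
            hs1 ▸ List.mem_map_of_mem ho
          obtain ⟨o', ho', h2⟩ := List.mem_map.1 h1
          have h3 : o'.1 = o.1 := (congrArg Prod.fst h2 :)
          exact ⟨o'.2.1, h3 ▸ (proc_bigs_mem ho').2.2.2.2 _ b3⟩
      obtain ⟨j, hj⟩ := hs.mem C hC
      exact ⟨_, hj⟩
    have hT : (w.map π).prod ∈ T := (hL w).2 ⟨t1 ++ t2', fun h hh =>
      (List.mem_append.1 hh).elim (a1 h) (b2 h), by rw [proc_run_app, proc_run_flat]; exact hw⟩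
    have hA := proc_lemA (ρ := ρ x) g (fun B => ((ψ' B).map g).prod) (fun B hB => (hs2 B hB).2) a3
    rw [Q_zero, one_mul, ← proc_prod_flat, hw, List.map_map, Nat.zero_add, a4, hPg,
      (hpos x L).1, (hpos x L).2, pow_zero, mul_one,
      show g ∘ ι = π from funext hgι] at hA
    rw [hA] at hT
    convert hT using 2
    unfold swp cuts
    congr 1
    refine (proc_zip (code x) (code x') _ _ _ _ _ _ hs1 fun o ho o' ho' hc => ?_).symm
    obtain ⟨c1, -, c3, -, -⟩ := proc_bigs_mem ho
    obtain ⟨d1, -, d3, -, d5⟩ := proc_bigs_mem ho'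
    simp only [code, Prod.mk.injEq] at hc
    obtain ⟨e1, e2, e3, e4⟩ := hc
    have e5 := proc_fin3 (he _ _) (he _ _) e2
    have e6 := proc_fin3 (he _ _) (he _ _) e3
    have e7 := (d5 _ b3).val g
    rw [← d1, ← e1] at e7
    have e8 : Q (opt π) x (ρ x o.2.2) =
        Q (opt π) x (ρ x o.2.2 - 1) * opt π (x (ρ x o.2.2 - 1)) := by
      rw [← Q_succ, Nat.sub_add_cancel (by omega)]
    have e9 : Q (opt π) x' (ρ x' o'.2.2) =
        Q (opt π) x' (ρ x' o'.2.2 - 1) * opt π (x' (ρ x' o'.2.2 - 1)) := by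
      rw [← Q_succ, Nat.sub_add_cancel (by omega)]
    simp only
    rw [eq_inv_mul_of_mul_eq e7, hPg, hPg, hPg, hPg, e8, e9, e5, e6, e4]
    group
  · intro x L hx
    have hw : (((List.range (pos x L)).map (W x)).map π).prod ∈ T := by
      rwa [← Q_eq_prod, hP, (hpos x L).1, (hpos x L).2, pow_zero, mul_one]
    obtain ⟨ts, hts, hrun⟩ := (hL _).1 hw
    have hall : ∀ t, ((run (ts.take t) ω).flatMap fun B => run (ts.drop t) [B]) =
        (List.range' 0 (pos x L)).map fun j => ι (W x j) := fun t => by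
      rw [← proc_run_flat, ← proc_run_app, List.take_append_drop, hrun, List.map_map,
        List.range_eq_range']
      rfl
    have hrd : ∀ t, Rd (fun j => ι (W x j)) 0
        ((run (ts.take t) ω).flatMap fun B => run (ts.drop t) [B]) := fun t => by
      rw [hall]
      exact proc_rd_range _ _ _
    have hstep : ∀ t, (∀ p,
        Cov (cuts (ρ x) (fun B => run (ts.drop (t + 1)) [B]) 0 (run (ts.take (t + 1)) ω)) p →
        Cov (cuts (ρ x) (fun B => run (ts.drop t) [B]) 0 (run (ts.take t) ω)) p) ∧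
        ∃ Z : Finset ℕ, Z.card ≤ D0 * Fintype.card V + ω.length ∧ ∀ p,
        Cov (cuts (ρ x) (fun B => run (ts.drop t) [B]) 0 (run (ts.take t) ω)) p →
        Cov (cuts (ρ x) (fun B => run (ts.drop (t + 1)) [B]) 0 (run (ts.take (t + 1)) ω)) p ∨
          p ∈ Z := by
      intro t
      by_cases ht : t < ts.length
      · have h1 : run (ts.take (t + 1)) ω = (run (ts.take t) ω).flatMap ts[t] := by
          rw [List.take_add_one, List.getElem?_eq_getElem ht, proc_run_app]
          rfl
        obtain ⟨h2, Z, h3, h4⟩ := proc_lemC (ψ := fun B => run (ts.drop t) [B])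
          (ψ' := fun B => run (ts.drop (t + 1)) [B]) (h := ts[t]) (hmono x) (fun B => by
            rw [← proc_run_flat, List.drop_eq_getElem_cons ht]
            show run _ (List.flatMap ts[t] [B]) = _
            rw [List.flatMap_singleton])
          (hD0 _ (hts _ (List.getElem_mem ht))) 0 (run (ts.take t) ω)
        rw [h1]
        exact ⟨h2, Z, h3.trans ((Nat.mul_le_mul_left _ (hlen x _ _ (hrd t))).trans
          (Nat.le_add_right _ _)), h4⟩
      · rw [List.take_of_length_le (by omega), List.take_of_length_le (by omega),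
          List.drop_of_length_le (by omega), List.drop_of_length_le (by omega)]
        exact ⟨fun _ h => h, ∅, by simp, fun _ h => Or.inl h⟩
    obtain ⟨τ, h1, h2⟩ := proc_tau
      (fun t p => Cov (cuts (ρ x) (fun B => run (ts.drop t) [B]) 0 (run (ts.take t) ω)) p) L
      (D0 * Fintype.card V + ω.length) ts.length
      (fun p => by
        rw [List.drop_length]
        exact proc_end (hρ2 x) 0 p _)
      (fun t => (hstep t).1)
      (by
        obtain ⟨Z, h1, h2⟩ := proc_lemB (ρ := ρ x) (ψ := fun B => run (ts.drop 0) [B]) 0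
          (run (ts.take 0) ω)
        rw [hall, List.length_map, List.length_range', Nat.zero_add, (hpos x L).1, hρ0] at h2
        exact ⟨Z, h1.trans (Nat.le_add_left _ _), fun p hp => h2 p (Nat.zero_le _) hp⟩)
      (fun t => (hstep t).2)
    exact ⟨τ, h1, fun t => ⟨⟨_, hstate x _ _ (hrd t)⟩, _, ⟨ts.take t, ts.drop t,
      fun h hh => hts h (List.mem_of_mem_take hh), fun h hh => hts h (List.mem_of_mem_drop hh),
      hrd t, by rw [hall, List.length_map, List.length_range'], rfl, rfl⟩, fun p _ => h2 t p⟩⟩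

end Pool.Agent.P.MP_f04817_lc.Ed
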