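import Pool.Agent.P.MP_f04817_lc.Ed.Iface

/-! Step SUB. -/

set_option autoImplicit false

namespace Pool.Agent.P.MP_f04817_lc.Ed

open Finset

/-- the substituted word -/
def subX {A : Type} (l : ℕ) (y : Bool → ℕ → A) (z : ℕ → Bool) : ℕ → A :=
  fun p => y (z (p / l)) (p % l)

/-- letter and offset at both ends of an interval -/
def subCode (l : ℕ) (hl : 0 < l) (z : ℕ → Bool) (c : ℕ × ℕ) : (Bool × Fin l) × (Bool × Fin l) :=
  ((z (c.1 / l), ⟨c.1 % l, Nat.mod_lt _ hl⟩), (z (c.2 / l), ⟨c.2 % l, Nat.mod_lt _ hl⟩))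

section

variable {A G : Type} [Group G] (π : A → G) (l : ℕ) (y : Bool → ℕ → A)

theorem sub_step (hl : 0 < l) (z : ℕ → Bool) (j o : ℕ) (ho : o ≤ l) :
    Q π (subX l y z) (l * j + o) = Q π (subX l y z) (l * j) * Q π (y (z j)) o := by
  rw [Q_add]
  congr 1
  refine Q_congr π fun p hp => ?_
  have hp' : p < l := by omega
  simp only [subX]
  rw [Nat.mul_add_div hl, Nat.div_eq_of_lt hp', Nat.add_zero, Nat.mul_add_mod, Nat.mod_eq_of_lt hp']

theorem sub_mul (hl : 0 < l) (z : ℕ → Bool) (j : ℕ) :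
    Q π (subX l y z) (l * j) = Q (fun b : Bool => Q π (y b) l) z j := by
  induction j with
  | zero => rfl
  | succ j ih => rw [Nat.mul_succ, sub_step π l y hl z j l le_rfl, ih, Q_succ]

theorem sub_Q (hl : 0 < l) (z : ℕ → Bool) (c : ℕ) :
    Q π (subX l y z) c =
      Q (fun b : Bool => Q π (y b) l) z (c / l) * Q π (y (z (c / l))) (c % l) := by
  rw [← sub_mul π l y hl, ← sub_step π l y hl z _ _ (Nat.mod_lt _ hl).le, Nat.div_add_mod]

theorem sub_swp (hl : 0 < l) (z z' : ℕ → Bool) (cs cs' : List (ℕ × ℕ))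
    (h : cs.map (subCode l hl z) = cs'.map (subCode l hl z')) :
    swp (fun b : Bool => Q π (y b) l) z z' (cs.map fun c => (c.1 / l, c.2 / l))
      (cs'.map fun c => (c.1 / l, c.2 / l)) = swp π (subX l y z) (subX l y z') cs cs' := by
  induction cs generalizing cs' with
  | nil => simp [swp]
  | cons c cs ih =>
    cases cs' with
    | nil => simp [swp]
    | cons c' cs' =>
      simp only [List.map_cons, List.cons.injEq] at h
      obtain ⟨h1, h2⟩ := h
      have ih' := ih cs' h2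
      simp only [subCode, Prod.mk.injEq, Fin.mk.injEq] at h1
      obtain ⟨⟨e1, e2⟩, e3, e4⟩ := h1
      unfold swp at ih' ⊢
      simp only [List.map_cons, List.zipWith_cons_cons, List.prod_cons]
      rw [ih']
      congr 1
      rw [sub_Q π l y hl z c.1, sub_Q π l y hl z c.2, sub_Q π l y hl z' c'.1,
        sub_Q π l y hl z' c'.2, e1, e2, e3, e4]
      group

end

theorem sub_srt (l L : ℕ) (hl : 0 < l) (cs : List (ℕ × ℕ)) (s : ℕ) (h : Srt (l * L) s cs) :
    Srt L (s / l) (cs.map fun c => (c.1 / l, c.2 / l)) := by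
  induction cs generalizing s with
  | nil =>
    have h' : s ≤ l * L := h
    exact Nat.div_le_of_le_mul h'
  | cons c cs ih =>
    exact ⟨Nat.div_le_div_right h.1, Nat.div_le_div_right h.2.1, ih _ h.2.2⟩

theorem sub_cov (l : ℕ) (hl : 0 < l) (cs : List (ℕ × ℕ)) (j : ℕ) :
    Cov cs (l * j + l - 1) ↔ Cov (cs.map fun c => (c.1 / l, c.2 / l)) j := by
  have key : ∀ c : ℕ × ℕ, (c.1 ≤ l * j + l - 1 ∧ l * j + l - 1 < c.2) ↔
      (c.1 / l ≤ j ∧ j < c.2 / l) := by
    intro c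
    have h1 : c.1 / l < j + 1 ↔ c.1 < (j + 1) * l := Nat.div_lt_iff_lt_mul hl
    have h2 : j + 1 ≤ c.2 / l ↔ (j + 1) * l ≤ c.2 := Nat.le_div_iff_mul_le hl
    have h3 : (j + 1) * l = l * j + l := by ring
    rw [h3] at h1 h2
    omega
  constructor
  · rintro ⟨c, hc, h⟩
    exact ⟨_, List.mem_map_of_mem hc, (key c).1 h⟩
  · rintro ⟨d, hd, h⟩
    obtain ⟨c, hc, rfl⟩ := List.mem_map.1 hd
    exact ⟨c, hc, (key c).2 h⟩

theorem sub_lt (l L j : ℕ) (hl : 0 < l) (hj : j < L) : l * j + l - 1 < l * L := by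
  have h1 : l * (j + 1) ≤ l * L := Nat.mul_le_mul_left l hj
  have h2 : l * (j + 1) = l * j + l := by ring
  omega

theorem p_SUB :
    S_SUB := by
  intro A G _ st T π l y hl hP
  obtain ⟨k, D, S, hS, Good, h1, h2, h3⟩ := hP
  have hfin : Finite {u : List ((Bool × Fin l) × (Bool × Fin l)) // u.length ≤ k} :=
    (List.finite_length_le _ k).to_subtype
  refine ⟨k, D, S × {u : List ((Bool × Fin l) × (Bool × Fin l)) // u.length ≤ k}, inferInstance,
    fun z L σ cs2 => ∃ cs, Good (subX l y z) (l * L) σ.1 cs ∧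
      cs2 = cs.map (fun c => (c.1 / l, c.2 / l)) ∧ σ.2.1 = cs.map (subCode l hl z), ?_, ?_, ?_⟩
  · rintro z L σ cs2 ⟨cs, hG, rfl, -⟩
    obtain ⟨a1, a2, -⟩ := h1 _ _ _ _ hG
    refine ⟨by simpa using a1, ?_, fun h => h.elim⟩
    simpa using sub_srt l L hl cs 0 a2
  · rintro z L σ cs2 z' L' cs2' ⟨cs, hG, rfl, e⟩ ⟨cs', hG', rfl, e'⟩
    obtain ⟨a1, a2⟩ := h2 _ _ _ _ _ _ _ hG hG'
    refine ⟨by simpa using a1, ?_⟩
    rw [sub_swp π l y hl z z' cs cs' (e.symm.trans e'), ← sub_mul π l y hl]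
    exact a2
  · intro z L hT
    rw [← sub_mul π l y hl] at hT
    obtain ⟨τ, hF, hτ⟩ := h3 _ _ hT
    refine ⟨fun j => τ (l * j + l - 1), fun t => ?_, fun t => ?_⟩
    · refine le_trans ?_ (hF t)
      refine card_le_card_of_injOn (fun j => l * j + l - 1) ?_ ?_
      · intro j hj
        simp only [coe_filter, mem_range, Set.mem_ofPred_eq] at hj ⊢
        exact ⟨sub_lt l L j hl hj.1, hj.2⟩
      · intro i _ j _ hij
        have hij' : l * i + l - 1 = l * j + l - 1 := hij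
        exact Nat.eq_of_mul_eq_mul_left hl (by omega)
    · obtain ⟨σ, cs, hG, hc⟩ := hτ t
      refine ⟨(σ, ⟨cs.map (subCode l hl z), by simpa using (h1 _ _ _ _ hG).1⟩), _,
        ⟨cs, hG, rfl, rfl⟩, fun p hp => ?_⟩
      rw [← sub_cov l hl]
      exact hc _ (sub_lt l L p hl hp)

end Pool.Agent.P.MP_f04817_lc.Ed
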