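import Pool.Agent.P.MP_f04817_lc.Ed.Iface

/-! Step ZED. -/

set_option autoImplicit false

namespace Pool.Agent.P.MP_f04817_lc.Ed

open Finset

/-- lengths of the runs -/
def zedA (K D C : ℕ) : ℕ → ℕ
  | 0 => D + 1
  | r + 1 => 2 * C + 2 * D + (4 * K + 3) * (2 * (4 * (K + 1) * zedA K D C r)) + 1

theorem zedA_gt (K D C r : ℕ) : D < zedA K D C r := by
  cases r with
  | zero => simp [zedA]
  | succ r => simp only [zedA]; omega

theorem zed_long (Y : ℕ → Prop) [DecidablePred Y] (L N : ℕ) (G : Finset ℕ)
    (hG : ∀ j, ¬ (Y j ↔ Y (j + 1)) → j ∈ G)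
    (hc : G.card * N < ((range L).filter Y).card) : ∃ b, ∀ i < N, Y (b + i) := by
  by_contra hn
  push Not at hn
  have hsub : (range L).filter Y ⊆ G.biUnion fun j => (range N).image fun i => j - i := by
    intro p hp
    have hp2 := (mem_filter.1 hp).2
    obtain ⟨i, hi, hY⟩ := hn p
    obtain ⟨j, h1, h2, h3⟩ := exists_change Y (Nat.le_add_right p i) fun h => hY (h.1 hp2)
    exact mem_biUnion.2 ⟨j, hG j h3, mem_image.2 ⟨j - p, mem_range.2 (by omega), by omega⟩⟩
  have h1 := card_le_card hsub
  have h2 : (G.biUnion fun j => (range N).image fun i => j - i).card ≤ G.card * N :=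
    card_biUnion_le_card_mul _ _ _ fun j _ => card_image_le.trans (by simp)
  omega

theorem zed_sum (z : ℕ → Bool) (W : Finset ℕ) :
    ∑ p ∈ W, sg (z p) =
      ((W.filter fun p => z p = true).card : ℤ) - (W.filter fun p => ¬ z p = true).card := by
  classical
  induction W using Finset.induction_on with
  | empty => simp
  | insert p W hp ih =>
    rw [sum_insert hp, ih, filter_insert, filter_insert]
    cases h : z p
    · simp only [sg, Bool.false_eq_true, if_false, not_false_eq_true, if_true]
      rw [card_insert_of_notMem fun hh => hp (mem_filter.1 hh).1]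
      push_cast; ring
    · simp only [sg, if_true, not_true_eq_false, if_false]
      rw [card_insert_of_notMem fun hh => hp (mem_filter.1 hh).1]
      push_cast; ring

theorem zed_minmax {L D a A : ℕ} {τ : ℕ → ℕ} (hf : Fib L D τ) (hA : D < A) (hL : a + A ≤ L) :
    ∃ i1 < A, ∃ i2 < A, τ (a + i1) < τ (a + i2) ∧
      ∀ i < A, τ (a + i1) ≤ τ (a + i) ∧ τ (a + i) ≤ τ (a + i2) := by
  have hne : (range A).Nonempty := ⟨0, mem_range.2 (by omega)⟩
  obtain ⟨i1, h1, h1'⟩ := exists_min_image (range A) (fun i => τ (a + i)) hne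
  obtain ⟨i2, h2, h2'⟩ := exists_max_image (range A) (fun i => τ (a + i)) hne
  refine ⟨i1, mem_range.1 h1, i2, mem_range.1 h2, ?_,
    fun i hi => ⟨h1' i (mem_range.2 hi), h2' i (mem_range.2 hi)⟩⟩
  by_contra hn
  have hsub : Ico a (a + A) ⊆ (range L).filter fun p => τ p = τ (a + i1) := by
    intro p hp
    rw [mem_Ico] at hp
    obtain ⟨i, rfl⟩ := Nat.exists_eq_add_of_le hp.1
    have h3 := h1' i (mem_range.2 (by omega))
    have h4 := h2' i (mem_range.2 (by omega))
    exact mem_filter.2 ⟨mem_range.2 (by omega), by omega⟩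
  have h5 := (card_le_card hsub).trans (hf _)
  rw [Nat.card_Ico] at h5
  omega

theorem zed_main {K D C L : ℕ} {z : ℕ → Bool} {τ : ℕ → ℕ}
    (hz : ∀ r ≤ K, ∀ p, p % (4 * (K + 1) * zedA K D C r) < zedA K D C r → z p = true)
    (hf : Fib L D τ) (hb : ∀ t, (bd L τ t).card ≤ K)
    (hs : ∀ t, |∑ p ∈ (range L).filter fun p => t < τ p, sg (z p)| ≤ C) (r : ℕ) :
    ∀ (F G : Finset ℕ), (∀ j, ¬ (j ∈ F ↔ j + 1 ∈ F) → j ∈ G) → G.card + 2 * r ≤ 2 * K →
      (∀ p ∈ F, z p = true) → ∀ a, a + zedA K D C r ≤ L →
      (∀ i < zedA K D C r, z (a + i) = true ∧ a + i ∉ F) →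
      ∃ t, (∃ i < zedA K D C r, τ (a + i) ≤ t) ∧ (∃ i < zedA K D C r, t < τ (a + i)) ∧
        r + 1 ≤ ((bd L τ t).filter fun j => j ∉ F).card := by
  induction r with
  | zero =>
    intro F G _ _ _ a hL hR
    obtain ⟨i1, h1, i2, h2, h3, -⟩ := zed_minmax hf (zedA_gt K D C 0) hL
    refine ⟨τ (a + i1), ⟨i1, h1, le_rfl⟩, ⟨i2, h2, h3⟩, ?_⟩
    obtain ⟨j, hj, h4, h5⟩ := exists_bd (t := τ (a + i1)) (τ := τ) (a := a) (p := a + i2)
      (q := a + i1) hL ⟨by omega, by omega⟩ ⟨by omega, by omega⟩ h3 (lt_irrefl _)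
    obtain ⟨i, rfl⟩ := Nat.exists_eq_add_of_le h4
    exact card_pos.2 ⟨a + i, mem_filter.2 ⟨hj, (hR i (by omega)).2⟩⟩
  | succ r ih =>
    intro F G hG hGc hF a hL hR
    obtain ⟨i1, h1, i2, h2, h3, h4⟩ := zed_minmax hf (zedA_gt K D C (r + 1)) hL
    set A := zedA K D C (r + 1) with hA
    set s1 := τ (a + i1) with hs1
    set s2 := τ (a + i2) - 1 with hs2
    set T := 4 * (K + 1) * zedA K D C r with hT
    set W := (range L).filter fun p => s1 < τ p ∧ ¬ s2 < τ p with hW
    have hWs : ∑ p ∈ W, sg (z p) ≤ 2 * C := by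
      have e1 := sum_filter_add_sum_filter_not ((range L).filter fun p => s1 < τ p)
        (fun p => s2 < τ p) fun p => sg (z p)
      rw [filter_filter, filter_filter] at e1
      have e2 : ((range L).filter fun p => s1 < τ p ∧ s2 < τ p) =
          (range L).filter fun p => s2 < τ p := filter_congr fun p _ => by omega
      rw [e2] at e1
      have e3 := abs_le.1 (hs s1)
      have e4 := abs_le.1 (hs s2)
      linarith [e3.2, e4.1]
    have hWp : A ≤ (W.filter fun p => z p = true).card + 2 * D := by
      have hsub : Ico a (a + A) ⊆ (W.filter fun p => z p = true) ∪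
          (((range L).filter fun p => τ p = s1) ∪ (range L).filter fun p => τ p = s2 + 1) := by
        intro p hp
        rw [mem_Ico] at hp
        obtain ⟨i, rfl⟩ := Nat.exists_eq_add_of_le hp.1
        have h5 := h4 i (by omega)
        have h6 := (hR i (by omega)).1
        simp only [hW, mem_union, mem_filter, mem_range, h6, and_true]
        omega
      have h5 := (card_le_card hsub).trans ((card_union_le _ _).trans
        (Nat.add_le_add_left ((card_union_le _ _).trans (Nat.add_le_add (hf _) (hf _))) _))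
      rw [Nat.card_Ico] at h5
      omega
    have hWm : (4 * K + 3) * (2 * T) < (W.filter fun p => ¬ z p = true).card := by
      rw [zed_sum] at hWs
      have h5 : A = 2 * C + 2 * D + (4 * K + 3) * (2 * T) + 1 := rfl
      omega
    set F' := F ∪ Ico a (a + A) with hF'
    set G' := G ∪ {a - 1, a + A - 1} with hG'
    have hG'c : G'.card ≤ G.card + 2 :=
      (card_union_le _ _).trans (Nat.add_le_add_left card_le_two _)
    have hFG : ∀ j, ¬ (j ∈ F' ↔ j + 1 ∈ F') → j ∈ G' := by
      intro j hj
      simp only [hF', hG', mem_union, mem_Ico, mem_insert, mem_singleton] at hj ⊢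
      by_cases h5 : j ∈ F ↔ j + 1 ∈ F
      · refine Or.inr ?_
        by_contra h6
        exact hj (or_congr h5 (by omega))
      · exact Or.inl (hG j h5)
    have hF'z : ∀ p ∈ F', z p = true := by
      intro p hp
      rcases mem_union.1 hp with hp | hp
      · exact hF p hp
      · rw [mem_Ico] at hp
        obtain ⟨i, rfl⟩ := Nat.exists_eq_add_of_le hp.1
        exact (hR i (by omega)).1
    obtain ⟨b, hbY⟩ := zed_long (fun p => p < L ∧ s1 < τ p ∧ ¬ s2 < τ p ∧ p ∉ F') L (2 * T)
      (insert (L - 1) (bd L τ s1 ∪ (bd L τ s2 ∪ G'))) (by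
        intro j hj
        by_contra hn
        simp only [mem_insert, mem_union, not_or, bd, mem_filter, mem_range] at hn
        obtain ⟨n1, n2, n3, n4⟩ := hn
        have n5 : j ∈ F' ↔ j + 1 ∈ F' := by
          by_contra h
          exact n4 (hFG j h)
        by_cases hl : j + 1 < L
        · have hl' : j < L := by omega
          apply hj
          simp only [hl, hl', true_and, not_not] at n2 n3 ⊢
          rw [n2, n3, n5]
        · apply hj
          constructor
          · intro h; omega
          · intro h; omega) (by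
        refine lt_of_le_of_lt (Nat.mul_le_mul_right _ ?_) (hWm.trans_le (card_le_card ?_))
        · have h5 := card_insert_le (L - 1) (bd L τ s1 ∪ (bd L τ s2 ∪ G'))
          have h6 := card_union_le (bd L τ s1) (bd L τ s2 ∪ G')
          have h7 := card_union_le (bd L τ s2) G'
          have h8 := hb s1
          have h9 := hb s2
          omega
        · intro p hp
          simp only [hW, mem_filter, mem_range] at hp ⊢
          exact ⟨hp.1.1, hp.1.1, hp.1.2.1, hp.1.2.2, fun h => hp.2 (hF'z p h)⟩)
    have hApos : 0 < zedA K D C r := lt_of_le_of_lt (Nat.zero_le _) (zedA_gt K D C r)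
    have hAT : zedA K D C r ≤ T := Nat.le_mul_of_pos_left _ (by omega)
    have hq1 : b ≤ T * (b / T + 1) := (Nat.lt_mul_div_succ b (by omega)).le
    have hq2 : T * (b / T + 1) ≤ b + T := by
      have := Nat.mul_div_le b T
      rw [Nat.mul_add]; omega
    have hY : ∀ i < zedA K D C r, T * (b / T + 1) + i < L ∧ s1 < τ (T * (b / T + 1) + i) ∧
        ¬ s2 < τ (T * (b / T + 1) + i) ∧ T * (b / T + 1) + i ∉ F' := by
      intro i hi
      have := hbY (T * (b / T + 1) + i - b) (by omega)
      rwa [show b + (T * (b / T + 1) + i - b) = T * (b / T + 1) + i by omega] at this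
    obtain ⟨t, ⟨j1, k1, k1'⟩, ⟨j2, k2, k2'⟩, k3⟩ := ih F' G' hFG (by omega) hF'z (T * (b / T + 1))
      (by have := (hY (zedA K D C r - 1) (by omega)).1; omega) (fun i hi => ⟨hz r (by omega) _ (by
        rw [← hT, Nat.mul_add_mod, Nat.mod_eq_of_lt (by omega)]; exact hi), (hY i hi).2.2.2⟩)
    have k4 := (hY j1 k1).2.1
    have k5 := (hY j2 k2).2.2.1
    have k6 : t < τ (a + i2) := by omega
    have k7 : ¬ t < τ (a + i1) := by omega
    refine ⟨t, ⟨i1, h1, by omega⟩, ⟨i2, h2, k6⟩, ?_⟩
    obtain ⟨j, hj, h5, h6⟩ := exists_bd (t := t) (τ := τ) (a := a) (p := a + i2)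
      (q := a + i1) hL ⟨by omega, by omega⟩ ⟨by omega, by omega⟩ k6 k7
    have hjn : j ∉ (bd L τ t).filter fun j => j ∉ F' := fun h =>
      (mem_filter.1 h).2 (mem_union_right _ (mem_Ico.2 ⟨h5, by omega⟩))
    have hsub : insert j ((bd L τ t).filter fun j => j ∉ F') ⊆
        (bd L τ t).filter fun j => j ∉ F := by
      intro p hp
      rcases mem_insert.1 hp with rfl | hp
      · obtain ⟨i, rfl⟩ := Nat.exists_eq_add_of_le h5
        exact mem_filter.2 ⟨hj, (hR i (by omega)).2⟩
      · exact mem_filter.2 ⟨(mem_filter.1 hp).1, fun h => (mem_filter.1 hp).2 (mem_union_left _ h)⟩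
    have h7 := card_le_card hsub
    rw [card_insert_of_notMem hjn] at h7
    omega

theorem zed_count (M T A : ℕ) (hT : 0 < T) :
    ((range M).filter fun p => p % T < A).card ≤ (M / T + 1) * A := by
  have hsub : ((range M).filter fun p => p % T < A) ⊆
      (range (M / T + 1) ×ˢ range A).image fun c => T * c.1 + c.2 := by
    intro p hp
    simp only [mem_filter, mem_range] at hp
    refine mem_image.2 ⟨(p / T, p % T), ?_, Nat.div_add_mod p T⟩
    simp only [mem_product, mem_range]
    exact ⟨Nat.lt_succ_of_le (Nat.div_le_div_right hp.1.le), hp.2⟩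
  refine (card_le_card hsub).trans (card_image_le.trans ?_)
  simp

theorem p_ZED :
    S_ZED := by
  classical
  intro K D C s
  set B := ∑ r ∈ range (K + 1), zedA K D C r with hB
  set M := 4 * B + 2 * s.natAbs with hM
  set P : ℕ → Prop := fun p => ∃ r ∈ range (K + 1),
    p % (4 * (K + 1) * zedA K D C r) < zedA K D C r with hP
  have hpos : ∀ r, 0 < zedA K D C r := fun r => lt_of_le_of_lt (Nat.zero_le _) (zedA_gt K D C r)
  have hcount : 4 * ((range M).filter P).card ≤ M + 4 * B := by
    have hsub : (range M).filter P ⊆ (range (K + 1)).biUnion fun r =>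
        (range M).filter fun p => p % (4 * (K + 1) * zedA K D C r) < zedA K D C r := by
      intro p hp
      obtain ⟨h1, r, h2, h3⟩ := mem_filter.1 hp
      exact mem_biUnion.2 ⟨r, h2, mem_filter.2 ⟨h1, h3⟩⟩
    have h1 := (card_le_card hsub).trans card_biUnion_le
    have h2 : ∀ r ∈ range (K + 1), 4 * (K + 1) *
        ((range M).filter fun p => p % (4 * (K + 1) * zedA K D C r) < zedA K D C r).card ≤
          M + 4 * (K + 1) * zedA K D C r := by
      intro r _
      have h3 := zed_count M (4 * (K + 1) * zedA K D C r) (zedA K D C r)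
        (Nat.mul_pos (by omega) (hpos r))
      have h4 := Nat.mul_div_le M (4 * (K + 1) * zedA K D C r)
      calc _ ≤ 4 * (K + 1) * ((M / (4 * (K + 1) * zedA K D C r) + 1) * zedA K D C r) :=
            Nat.mul_le_mul_left _ h3
        _ = 4 * (K + 1) * zedA K D C r * (M / (4 * (K + 1) * zedA K D C r)) +
              4 * (K + 1) * zedA K D C r := by ring
        _ ≤ _ := by omega
    have h3 := sum_le_sum h2
    rw [← mul_sum, sum_add_distrib, ← mul_sum, sum_const, card_range, smul_eq_mul, ← hB] at h3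
    have h4 : (K + 1) * (4 * ((range M).filter P).card) ≤ (K + 1) * (M + 4 * B) :=
      calc _ = 4 * (K + 1) * ((range M).filter P).card := by ring
        _ ≤ _ := Nat.mul_le_mul_left _ h1
        _ ≤ _ := h3
        _ = _ := by ring
    exact Nat.le_of_mul_le_mul_left h4 (by omega)
  set z : ℕ → Bool := fun p => decide (P p ∨ M ≤ p) with hz
  have hsum : ∑ p ∈ range M, sg (z p) ≤ s := by
    rw [zed_sum]
    have h1 : ((range M).filter fun p => z p = true) = (range M).filter P :=
      filter_congr fun p hp => by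
        have := mem_range.1 hp
        simp only [hz, decide_eq_true_eq]
        exact ⟨fun h => h.resolve_right (by omega), Or.inl⟩
    have h2 := card_filter_add_card_filter_not (s := range M) fun p => z p = true
    rw [h1] at h2 ⊢
    rw [card_range] at h2
    omega
  refine ⟨z, M + (s - ∑ p ∈ range M, sg (z p)).toNat, ?_, fun τ hf hb hs => ?_⟩
  · rw [sum_range_add]
    have h1 : ∀ i ∈ range (s - ∑ p ∈ range M, sg (z p)).toNat, sg (z (M + i)) = 1 := by
      intro i _
      simp [hz, sg]
    rw [sum_congr rfl h1, sum_const, card_range, nsmul_eq_mul, Int.toNat_of_nonneg (by omega)]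
    ring
  · have hzz : ∀ r ≤ K, ∀ p, p % (4 * (K + 1) * zedA K D C r) < zedA K D C r → z p = true := by
      intro r hr p hp
      simp only [hz, decide_eq_true_eq]
      exact Or.inl ⟨r, mem_range.2 (by omega), hp⟩
    have hAB : zedA K D C K ≤ B :=
      single_le_sum (f := fun r => zedA K D C r) (fun _ _ => Nat.zero_le _)
        (mem_range.2 (Nat.lt_succ_self K))
    obtain ⟨t, -, -, h3⟩ := zed_main hzz hf hb hs K ∅ ∅ (by simp) (by simp) (by simp) 0
      (by omega) fun i hi => ⟨hzz K le_rfl _ (by
        rw [Nat.zero_add]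
        exact lt_of_le_of_lt (Nat.mod_le _ _) hi), by simp⟩
    have h4 := h3.trans ((card_filter_le _ _).trans (hb t))
    omega

end Pool.Agent.P.MP_f04817_lc.Ed
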