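import Pool.Agent.P.MP_f04817_lc.Ed.Iface

/-! Step ENC. -/

set_option autoImplicit false

namespace Pool.Agent.P.MP_f04817_lc.Ed

open Finset

section Enc

variable {A : Type} (a b : A) (x : ℕ → Option A)

/-- length of the real part of block `i` -/
def encD (i : ℕ) : ℕ := if (x i).isSome then 1 else 0

/-- start of block `i` -/
def encA : ℕ → ℕ
  | 0 => 0
  | i + 1 => encA i + encD x i + (2 * i + 4)

/-- letter `o` of pad `i` -/
def encP (i o : ℕ) : A := if o = 0 ∨ (o % 2 = 1 ∧ o < 2 * i + 3) then a else b

/-- exponent after `o` letters of pad `i` -/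
def encE (i o : ℕ) : ℕ := if o = 0 ∨ o = 2 * i + 4 then 0 else if o % 2 = 1 then 1 else 2

theorem encD_le (i : ℕ) : encD x i ≤ 1 := by unfold encD; split_ifs <;> omega

theorem encA_mono : StrictMono (encA x) :=
  strictMono_nat_of_lt_succ fun i => by rw [encA]; omega

theorem exists_blk (y : ℕ) : ∃ i, encA x i ≤ y ∧ y < encA x (i + 1) := by
  induction y with
  | zero => exact ⟨0, le_rfl, encA_mono x (Nat.lt_succ_self 0)⟩
  | succ y ih =>
    obtain ⟨i, h1, h2⟩ := ih
    by_cases h : y + 1 < encA x (i + 1)
    · exact ⟨i, by omega, h⟩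
    · have : encA x (i + 1) < encA x (i + 1 + 1) := encA_mono x (by omega)
      exact ⟨i + 1, by omega, by omega⟩

/-- the block of a position -/
noncomputable def encK (y : ℕ) : ℕ := (exists_blk x y).choose

theorem encK_spec (y : ℕ) : encA x (encK x y) ≤ y ∧ y < encA x (encK x y + 1) :=
  (exists_blk x y).choose_spec

theorem le_encK {i y : ℕ} : i ≤ encK x y ↔ encA x i ≤ y := by
  have h := encK_spec x y
  refine ⟨fun hi => ((encA_mono x).monotone hi).trans h.1, fun hi => ?_⟩
  exact Nat.lt_succ_iff.1 ((encA_mono x).lt_iff_lt.1 (hi.trans_lt h.2))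

theorem encK_eq {i y : ℕ} (h1 : encA x i ≤ y) (h2 : y < encA x (i + 1)) : encK x y = i := by
  have e1 := (le_encK x).2 h1
  have e2 := mt (le_encK x (i := i + 1) (y := y)).1 (not_le.2 h2)
  omega

/-- the padded word -/
noncomputable def encW (y : ℕ) : A :=
  if y < encA x (encK x y) + encD x (encK x y) then (x (encK x y)).getD a
  else encP a b (encK x y) (y - (encA x (encK x y) + encD x (encK x y)))

/-- number of blocks started before a position -/
noncomputable def encR : ℕ → ℕ
  | 0 => 0
  | c + 1 => encK x c + 1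

/-- the exponent at a position -/
noncomputable def encX : ℕ → ℕ
  | 0 => 0
  | c + 1 => encE (encK x c) (c + 1 - (encA x (encK x c) + encD x (encK x c)))

theorem encW_pad {i o : ℕ} (ho : o < 2 * i + 4) :
    encW a b x (encA x i + encD x i + o) = encP a b i o := by
  have e : encK x (encA x i + encD x i + o) = i := encK_eq x (by omega) (by rw [encA]; omega)
  rw [encW, e, if_neg (by omega), Nat.add_sub_cancel_left]

theorem encW_real {i : ℕ} {y : A} (h : x i = some y) : encW a b x (encA x i) = y := by
  have e : encK x (encA x i) = i := encK_eq x le_rfl (encA_mono x (Nat.lt_succ_self i))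
  rw [encW, e, if_pos (by simp [encD, h]), h, Option.getD_some]

theorem enc_val {G : Type} [Group G] (π : A → G) (hab : π a * π b = 1) (i : ℕ) :
    Q π (encW a b x) (encA x i) = Q (opt π) x i ∧ ∀ o ≤ 2 * i + 4,
      Q π (encW a b x) (encA x i + encD x i + o) = Q (opt π) x (i + 1) * π a ^ encE i o := by
  have key : ∀ i, Q π (encW a b x) (encA x i) = Q (opt π) x i → ∀ o ≤ 2 * i + 4,
      Q π (encW a b x) (encA x i + encD x i + o) = Q (opt π) x (i + 1) * π a ^ encE i o := by
    intro i h o ho
    induction o with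
    | zero =>
      rw [Q_succ, ← h]
      cases hx : x i with
      | none => simp [encD, encE, hx, opt]
      | some y => simp [encD, encE, hx, opt, Q_succ, encW_real a b x hx]
    | succ o ih =>
      rw [← add_assoc, Q_succ, ih (by omega), encW_pad a b x (by omega), mul_assoc]
      congr 1
      simp only [encE, encP, Nat.add_eq_zero_iff, one_ne_zero, and_false, false_or]
      split_ifs <;> first | omega | simp [pow_two, mul_assoc, hab]
  induction i with
  | zero => exact ⟨rfl, key 0 rfl⟩
  | succ i ih =>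
    have h : Q π (encW a b x) (encA x (i + 1)) = Q (opt π) x (i + 1) := by
      rw [encA, ih.2 _ le_rfl]
      simp [encE]
    exact ⟨h, key _ h⟩

theorem enc_aab (hab : a ≠ b) {y : ℕ} (h0 : encW a b x y = a) (h1 : encW a b x (y + 1) = a)
    (h2 : encW a b x (y + 2) = b) : ∃ i, y = encA x i + encD x i := by
  obtain ⟨i, k1, k2⟩ := exists_blk x y
  refine ⟨i, ?_⟩
  have hd := encD_le x i
  rw [encA] at k2
  by_cases h : y < encA x i + encD x i
  · rw [show y + 2 = encA x i + encD x i + 1 by omega, encW_pad a b x (by omega), encP,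
      if_pos (by omega)] at h2
    exact absurd h2 hab
  obtain ⟨o, rfl⟩ := Nat.exists_eq_add_of_le (not_lt.1 h)
  rw [encW_pad a b x (by omega), encP] at h0
  have k3 : o = 0 ∨ (o % 2 = 1 ∧ o < 2 * i + 3) := by
    by_contra c
    exact hab (by rw [if_neg c] at h0; exact h0.symm)
  rw [add_assoc _ o, encW_pad a b x (by omega), encP] at h1
  by_contra c
  exact hab (by rw [if_neg (by omega)] at h1; exact h1.symm)

theorem enc_uniq (hab : a ≠ b) {s s' m : ℕ} (h : encR x s + 2 ≤ encR x (s + m))
    (hW : ∀ j < m, encW a b x (s + j) = encW a b x (s' + j)) : s = s' := by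
  obtain ⟨i, hi⟩ : ∃ i, i = encR x s := ⟨_, rfl⟩
  have k1 : s ≤ encA x i := by
    cases s with
    | zero => omega
    | succ c => exact hi ▸ (encK_spec x c).2
  have k2 : encA x (i + 1) < s + m := by
    cases hs : s + m with
    | zero => rw [hs, encR] at h; omega
    | succ c =>
      rw [hs, encR] at h
      exact Nat.lt_succ_of_le ((le_encK x).1 (by omega))
  rw [encA] at k2
  obtain ⟨r, hr⟩ : ∃ r, encA x i + encD x i = s + r := ⟨encA x i + encD x i - s, by omega⟩
  have k3 : ∀ o < 2 * i + 4, encW a b x (s' + r + o) = encP a b i o := fun o ho => by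
    rw [add_assoc, ← hW _ (by omega), ← add_assoc, ← hr, encW_pad a b x ho]
  obtain ⟨j, hj⟩ := enc_aab a b x hab (y := s' + r) ((k3 0 (by omega)).trans (by simp [encP]))
    ((k3 1 (by omega)).trans (by simp [encP])) ((k3 2 (by omega)).trans (by simp [encP]))
  rw [hj] at k3
  rcases lt_trichotomy i j with c | c | c
  · have := k3 (2 * i + 3) (by omega)
    rw [encW_pad a b x (by omega), encP, encP, if_pos (by omega), if_neg (by omega)] at this
    exact absurd this hab
  · subst c
    omega
  · have := k3 (2 * j + 3) (by omega)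
    rw [encW_pad a b x (by omega), encP, encP, if_neg (by omega), if_pos (by omega)] at this
    exact absurd this.symm hab

end Enc

/-- the symmetric form of the encoding statement -/
theorem enc_symm {A G : Type} [Group G] (π : A → G) (a b : A) (hab : a ≠ b)
    (hπ : π a * π b = 1) (x : ℕ → Option A) :
    ∃ (pos ρ e : ℕ → ℕ) (W : ℕ → A), ρ 0 = 0 ∧ (∀ c, ρ c ≤ ρ (c + 1)) ∧
      (∀ c, ρ (c + 1) ≤ ρ c + 1) ∧ (∀ L, ρ (pos L) = L ∧ e (pos L) = 0) ∧ (∀ c, e c ≤ 2) ∧
      (∀ c, Q π W c = Q (opt π) x (ρ c) * π a ^ e c) ∧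
      ∀ s s' m, ρ s + 2 ≤ ρ (s + m) → (∀ j < m, W (s + j) = W (s' + j)) → s = s' := by
  have hK : ∀ c, encK x c ≤ encK x (c + 1) ∧ encK x (c + 1) ≤ encK x c + 1 := fun c => by
    have h := encK_spec x c
    refine ⟨(le_encK x).2 (by omega), Nat.lt_succ_iff.1 (not_le.1 fun h' => ?_)⟩
    have h1 := (le_encK x).1 h'
    have h2 := encA_mono x (Nat.lt_succ_self (encK x c + 1))
    simp only [Nat.succ_eq_add_one] at h1 h2
    omega
  have h0 : encK x 0 = 0 := encK_eq x le_rfl (encA_mono x (Nat.lt_succ_self 0))
  refine ⟨encA x, encR x, encX x, encW a b x, rfl, fun c => ?_, fun c => ?_, fun L => ?_,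
    fun c => ?_, fun c => ?_, fun s s' m => enc_uniq a b x hab⟩
  · cases c with
    | zero => exact Nat.zero_le _
    | succ c => exact Nat.succ_le_succ (hK c).1
  · cases c with
    | zero => simp [encR, h0]
    | succ c => exact Nat.succ_le_succ (hK c).2
  · cases L with
    | zero => exact ⟨rfl, rfl⟩
    | succ L =>
      have e1 : encA x (L + 1) = encA x L + encD x L + (2 * L + 3) + 1 := rfl
      have e2 : encK x (encA x L + encD x L + (2 * L + 3)) = L := encK_eq x (by omega) (by omega)
      rw [e1, encR, encX, e2, encE, if_pos (by omega)]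
      exact ⟨rfl, rfl⟩
  · cases c with
    | zero => exact Nat.zero_le _
    | succ c => rw [encX, encE]; split_ifs <;> omega
  · cases c with
    | zero => simp [encR, encX, Q_zero]
    | succ c =>
      have h := encK_spec x c
      have hd := encD_le x (encK x c)
      rw [encA] at h
      rw [encR, encX, ← (enc_val a b x π hπ _).2 _ (by omega)]
      congr 1
      omega

theorem p_ENC :
    S_ENC := by
  intro A G _ π a b hab hπ x
  obtain ⟨pos, ρ, e, W, h1, h2, h3, h4, h5, h6, h7⟩ := enc_symm π a b hab hπ x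
  exact ⟨pos, ρ, e, W, h1, h2, h3, h4, h5, h6, fun s s' m hs hW =>
    not_le.1 fun h => hs.ne (h7 s s' m h hW)⟩

end Pool.Agent.P.MP_f04817_lc.Ed
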