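import Mathlib

/-! Definitions, basic lemmas and the statements of the steps of the proof that a finitely
generated group with an EDT0L word problem is finite. -/

set_option autoImplicit false

namespace Pool.Agent.P.MP_f04817_lc.Ed

open Finset

/-- apply the tables of `ts` one after the other -/
def run {V : Type} (ts : List (V → List V)) (u : List V) : List V :=
  ts.foldl (fun u h => u.flatMap h) u

/-- the words with value in `T` form an EDT0L language (list form) -/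
def Sys {A G : Type} [Group G] (T : Set G) (π : A → G) : Prop :=
  ∃ (V : Type) (_ : Finite V) (ι : A → V) (ω : List V) (H : Set (V → List V)),
    Function.Injective ι ∧ H.Finite ∧ ∀ w : List A, (w.map π).prod ∈ T ↔
      ∃ ts : List (V → List V), (∀ h ∈ ts, h ∈ H) ∧ run ts ω = w.map ι

/-- the words with value in `T` form an EDT0L language (free monoid form) -/
def FM {A G : Type} [Group G] (T : Set G) (π : A → G) : Prop :=
  ∃ (V : Type) (_ : Finite V) (ι : A ↪ V) (ω : FreeMonoid V)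
    (H : Finset (Monoid.End (FreeMonoid V))), ∀ w : FreeMonoid A, FreeMonoid.lift π w ∈ T ↔
      ∃ φ ∈ Submonoid.closure (H : Set (Monoid.End (FreeMonoid V))), φ ω = FreeMonoid.map ι w

/-- value of the first `c` letters -/
def Q {A G : Type} [Group G] (π : A → G) (x : ℕ → A) : ℕ → G
  | 0 => 1
  | c + 1 => Q π x c * π (x c)

/-- `cs` is an increasing list of intervals inside `[s, L]` -/
def Srt (L : ℕ) : ℕ → List (ℕ × ℕ) → Prop
  | s, [] => s ≤ L
  | s, c :: cs => s ≤ c.1 ∧ c.1 ≤ c.2 ∧ Srt L c.2 cs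

/-- `p` lies in one of the intervals -/
def Cov (cs : List (ℕ × ℕ)) (p : ℕ) : Prop := ∃ c ∈ cs, c.1 ≤ p ∧ p < c.2

/-- value of the word with the gaps of `x` and the intervals of `x'` -/
def swp {A G : Type} [Group G] (π : A → G) (x x' : ℕ → A) (cs cs' : List (ℕ × ℕ)) : G :=
  (List.zipWith (fun c c' : ℕ × ℕ =>
    Q π x c.1 * (Q π x' c'.1)⁻¹ * Q π x' c'.2 * (Q π x c.2)⁻¹) cs cs').prod

/-- at most `D` positions below `L` are consumed at each time -/
def Fib (L D : ℕ) (τ : ℕ → ℕ) : Prop := ∀ t, ((range L).filter fun p => τ p = t).card ≤ D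

/-- the places where the status at time `t` changes -/
def bd (L : ℕ) (τ : ℕ → ℕ) (t : ℕ) : Finset ℕ :=
  (range L).filter fun j => j + 1 < L ∧ ¬ (t < τ j ↔ t < τ (j + 1))

/-- the interval process; with `st` true the intervals are non-empty and do not touch -/
def Proc {A G : Type} [Group G] (st : Prop) (T : Set G) (π : A → G) : Prop :=
  ∃ (k D : ℕ) (S : Type) (_ : Finite S) (Good : (ℕ → A) → ℕ → S → List (ℕ × ℕ) → Prop),
    (∀ x L σ cs, Good x L σ cs → cs.length ≤ k ∧ Srt L 0 cs ∧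
      (st → (∀ c ∈ cs, c.1 < c.2) ∧ cs.Pairwise fun c d => c.2 < d.1)) ∧
    (∀ x L σ cs x' L' cs', Good x L σ cs → Good x' L' σ cs' →
      cs.length = cs'.length ∧ swp π x x' cs cs' * Q π x L ∈ T) ∧
    ∀ x L, Q π x L ∈ T → ∃ τ : ℕ → ℕ, Fib L D τ ∧
      ∀ t, ∃ σ cs, Good x L σ cs ∧ ∀ p < L, (t < τ p ↔ Cov cs p)

/-- the value of a letter or of the empty word -/
def opt {A G : Type} [Group G] (π : A → G) : Option A → G
  | none => 1
  | some y => π y

/-- sign of a letter -/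
def sg (b : Bool) : ℤ := if b then 1 else -1

section Basic

variable {A G : Type} [Group G] (π : A → G)

theorem Q_zero (x : ℕ → A) : Q π x 0 = 1 := rfl

theorem Q_succ (x : ℕ → A) (c : ℕ) : Q π x (c + 1) = Q π x c * π (x c) := rfl

theorem Q_add (x : ℕ → A) (a c : ℕ) : Q π x (a + c) = Q π x a * Q π (fun p => x (a + p)) c := by
  induction c with
  | zero => simp [Q_zero]
  | succ c ih => rw [← Nat.add_assoc, Q_succ, Q_succ, ih, mul_assoc]

theorem Q_congr {x y : ℕ → A} {c : ℕ} (h : ∀ p < c, x p = y p) : Q π x c = Q π y c := by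
  induction c with
  | zero => rfl
  | succ c ih =>
    rw [Q_succ, Q_succ, ih fun p hp => h p (by omega), h c (by omega)]

theorem Q_seg {x y : ℕ → A} {a b : ℕ} (hab : a ≤ b) (h : ∀ p, a ≤ p → p < b → x p = y p) :
    (Q π x a)⁻¹ * Q π x b = (Q π y a)⁻¹ * Q π y b := by
  obtain ⟨c, rfl⟩ := Nat.exists_eq_add_of_le hab
  rw [Q_add, Q_add, inv_mul_cancel_left, inv_mul_cancel_left]
  exact Q_congr π fun p hp => h _ (by omega) (by omega)

theorem Q_eq_prod (x : ℕ → A) (c : ℕ) :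
    Q π x c = (((List.range c).map x).map π).prod := by
  induction c with
  | zero => rfl
  | succ c ih => rw [Q_succ, ih, List.range_succ]; simp

theorem Q_getD (w : List A) (a : A) : Q π (fun p => w.getD p a) w.length = (w.map π).prod := by
  rw [Q_eq_prod]
  congr 2
  refine List.ext_getElem (by simp) fun i h1 h2 => ?_
  simp [List.getD_eq_getElem?_getD, List.getElem?_eq_getElem h2]

theorem Q_inv (inv : A → A) (hinv : ∀ y, π (inv y) = (π y)⁻¹) (y : ℕ → A) (l : ℕ) :
    Q π (fun o => inv (y (l - 1 - o))) l = (Q π y l)⁻¹ := by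
  induction l generalizing y with
  | zero => simp [Q_zero]
  | succ l ih =>
    rw [Q_succ, Nat.add_comm l 1, Q_add π y 1 l, mul_inv_rev, ← ih, hinv]
    congr 1
    · exact Q_congr π fun p hp => by congr 2; omega
    · simp [Q_succ, Q_zero]

end Basic

theorem Srt.le {L s : ℕ} {cs : List (ℕ × ℕ)} (h : Srt L s cs) : s ≤ L := by
  induction cs generalizing s with
  | nil => exact h
  | cons c cs ih => exact h.1.trans (h.2.1.trans (ih h.2.2))

theorem Srt.mem {L s : ℕ} {cs : List (ℕ × ℕ)} (h : Srt L s cs) {c : ℕ × ℕ} (hc : c ∈ cs) :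
    s ≤ c.1 ∧ c.1 ≤ c.2 ∧ c.2 ≤ L := by
  induction cs generalizing s with
  | nil => simp at hc
  | cons d cs ih =>
    rcases List.mem_cons.1 hc with rfl | hc
    · exact ⟨h.1, h.2.1, h.2.2.le⟩
    · have := ih h.2.2 hc
      have h1 := h.1
      have h2 := h.2.1
      omega

theorem cov_nil (p : ℕ) : ¬ Cov [] p := by simp [Cov]

theorem cov_cons (c : ℕ × ℕ) (cs : List (ℕ × ℕ)) (p : ℕ) :
    Cov (c :: cs) p ↔ (c.1 ≤ p ∧ p < c.2) ∨ Cov cs p := by simp [Cov]

theorem bd_card_le {L t : ℕ} {τ : ℕ → ℕ} {cs : List (ℕ × ℕ)}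
    (h : ∀ p < L, (t < τ p ↔ Cov cs p)) : (bd L τ t).card ≤ 2 * cs.length := by
  have hsub : bd L τ t ⊆ (cs.map fun c => c.1 - 1).toFinset ∪ (cs.map fun c => c.2 - 1).toFinset := by
    intro j hj
    simp only [bd, mem_filter, mem_range] at hj
    obtain ⟨h1, h2, h3⟩ := hj
    rw [h j h1, h (j + 1) h2] at h3
    simp only [mem_union, List.mem_toFinset, List.mem_map]
    by_cases hc : Cov cs j
    · obtain ⟨c, hc1, hc2⟩ := hc
      refine Or.inr ⟨c, hc1, ?_⟩
      by_contra hne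
      exact h3 ⟨fun _ => ⟨c, hc1, by omega⟩, fun _ => ⟨c, hc1, hc2⟩⟩
    · have hc' : Cov cs (j + 1) := by
        by_contra hn
        exact h3 ⟨fun h => absurd h hc, fun h => absurd h hn⟩
      obtain ⟨c, hc1, hc2⟩ := hc'
      refine Or.inl ⟨c, hc1, ?_⟩
      by_contra hne
      exact hc ⟨c, hc1, by omega⟩
  refine (card_le_card hsub).trans ((card_union_le _ _).trans ?_)
  have h1 := List.toFinset_card_le (cs.map fun c => c.1 - 1)
  have h2 := List.toFinset_card_le (cs.map fun c => c.2 - 1)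
  simp only [List.length_map] at h1 h2
  omega

/-- a predicate with different values at `p` and `q` changes its value between them -/
theorem exists_change (P : ℕ → Prop) {p q : ℕ} (hpq : p ≤ q) (h : ¬ (P p ↔ P q)) :
    ∃ j, p ≤ j ∧ j + 1 ≤ q ∧ ¬ (P j ↔ P (j + 1)) := by
  induction q, hpq using Nat.le_induction with
  | base => exact absurd Iff.rfl h
  | succ q hq ih =>
    by_cases h1 : P p ↔ P q
    · exact ⟨q, hq, le_rfl, fun h2 => h (h1.trans h2)⟩
    · obtain ⟨j, h2, h3, h4⟩ := ih h1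
      exact ⟨j, h2, by omega, h4⟩

/-- a set alive in part at time `t` inside `[a, b)` gives a point of `bd` there -/
theorem exists_bd {L t a b p q : ℕ} {τ : ℕ → ℕ} (hb : b ≤ L) (hp : a ≤ p ∧ p < b)
    (hq : a ≤ q ∧ q < b) (h1 : t < τ p) (h2 : ¬ t < τ q) :
    ∃ j ∈ bd L τ t, a ≤ j ∧ j + 1 < b := by
  rcases le_total p q with hpq | hpq
  · obtain ⟨j, h3, h4, h5⟩ := exists_change (fun j => t < τ j) hpq fun h => h2 (h.1 h1)
    exact ⟨j, by simp only [bd, mem_filter, mem_range]; exact ⟨by omega, by omega, h5⟩,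
      by omega, by omega⟩
  · obtain ⟨j, h3, h4, h5⟩ := exists_change (fun j => t < τ j) hpq fun h => h2 (h.2 h1)
    exact ⟨j, by simp only [bd, mem_filter, mem_range]; exact ⟨by omega, by omega, h5⟩,
      by omega, by omega⟩

-- deps:
def S_ENC : Prop :=
  ∀ (A G : Type) [Group G] (π : A → G) (a b : A), a ≠ b → π a * π b = 1 →
    ∀ x : ℕ → Option A, ∃ (pos ρ e : ℕ → ℕ) (W : ℕ → A), ρ 0 = 0 ∧ (∀ c, ρ c ≤ ρ (c + 1)) ∧
      (∀ c, ρ (c + 1) ≤ ρ c + 1) ∧ (∀ L, ρ (pos L) = L ∧ e (pos L) = 0) ∧ (∀ c, e c ≤ 2) ∧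
      (∀ c, Q π W c = Q (opt π) x (ρ c) * π a ^ e c) ∧
      ∀ s s' m, s < s' → (∀ j < m, W (s + j) = W (s' + j)) → ρ (s + m) < ρ s + 2

-- deps: ENC
def S_PROC : Prop :=
  ∀ (A G : Type) [Group G] (T : Set G) (π : A → G) (a b : A), a ≠ b → π a * π b = 1 →
    Sys T π → Proc True T (opt π)

-- deps:
def S_ZED : Prop :=
  ∀ (K D C : ℕ) (s : ℤ), ∃ (z : ℕ → Bool) (L : ℕ), ∑ p ∈ range L, sg (z p) = s ∧
    ∀ τ : ℕ → ℕ, Fib L D τ → (∀ t, (bd L τ t).card ≤ K) →
      ¬ ∀ t, |∑ p ∈ (range L).filter fun p => t < τ p, sg (z p)| ≤ C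

-- deps:
def S_SUB : Prop :=
  ∀ (A G : Type) [Group G] (st : Prop) (T : Set G) (π : A → G) (l : ℕ) (y : Bool → ℕ → A),
    0 < l → Proc st T π → Proc False T fun b : Bool => Q π (y b) l

-- deps: ZED
def S_PER : Prop :=
  ∀ (G : Type) [Group G] (T : Set G) (g : G), Proc False T (fun b : Bool => g ^ sg b) →
    ∃ δ : ℤ, 0 < δ ∧ ∀ n : ℤ, g ^ n ∈ T ↔ g ^ (n + δ) ∈ T

-- deps:
def S_CONV : Prop :=
  ∀ (A G : Type) [Group G] (T : Set G) (π : A → G), FM T π → Sys T π

-- deps: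
def S_REG : Prop :=
  ∀ (A G F : Type) [Group G] [Group F] [Finite A] [Finite F] (π : A → G) (f : G →* F)
    (U : Set F), FM (f ⁻¹' U) π

end Pool.Agent.P.MP_f04817_lc.Ed
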