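import Pool.Agent.P.MP_f04817_lc.Ed.Iface

/-! Step REG. -/

set_option autoImplicit false

namespace Pool.Agent.P.MP_f04817_lc.Ed

open Finset

/-- the table that reads one letter -/
def reg_step {A G F : Type} [Group G] [Group F] (π : A → G) (f : G →* F) (x : A) :
    Monoid.End (FreeMonoid (A ⊕ F)) :=
  FreeMonoid.lift fun v => match v with
    | Sum.inl y => FreeMonoid.of (Sum.inl y)
    | Sum.inr g => FreeMonoid.of (Sum.inl x) * FreeMonoid.of (Sum.inr (g * f (π x)))

open Classical in
/-- the table that stops in an accepting state -/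
noncomputable def reg_end (A : Type) {F : Type} (U : Set F) :
    Monoid.End (FreeMonoid (A ⊕ F)) :=
  FreeMonoid.lift fun v => match v with
    | Sum.inl y => FreeMonoid.of (Sum.inl y)
    | Sum.inr g => if g ∈ U then 1 else FreeMonoid.of (Sum.inr g)

theorem reg_fix {A F : Type} (h : Monoid.End (FreeMonoid (A ⊕ F)))
    (hh : ∀ y : A, h (FreeMonoid.of (Sum.inl y)) = FreeMonoid.of (Sum.inl y)) (w : FreeMonoid A) :
    h (FreeMonoid.map Sum.inl w) = FreeMonoid.map Sum.inl w := by
  induction w using FreeMonoid.inductionOn' with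
  | one => simp
  | of_mul b a ih => rw [map_mul, map_mul, ih, FreeMonoid.map_of, hh]

theorem reg_step_inl {A G F : Type} [Group G] [Group F] (π : A → G) (f : G →* F) (x y : A) :
    reg_step π f x (FreeMonoid.of (Sum.inl y)) = FreeMonoid.of (Sum.inl y) := rfl

theorem reg_step_inr {A G F : Type} [Group G] [Group F] (π : A → G) (f : G →* F) (x : A)
    (g : F) : reg_step π f x (FreeMonoid.of (Sum.inr g)) =
      FreeMonoid.of (Sum.inl x) * FreeMonoid.of (Sum.inr (g * f (π x))) := rfl

theorem reg_end_inl {A F : Type} (U : Set F) (y : A) :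
    reg_end A U (FreeMonoid.of (Sum.inl y)) = FreeMonoid.of (Sum.inl y) := rfl

theorem reg_end_mem {A F : Type} (U : Set F) {g : F} (hg : g ∈ U) :
    reg_end A U (FreeMonoid.of (Sum.inr g)) = 1 := by
  unfold reg_end
  erw [FreeMonoid.lift_eval_of]
  exact if_pos hg

theorem reg_end_not_mem {A F : Type} (U : Set F) {g : F} (hg : g ∉ U) :
    reg_end A U (FreeMonoid.of (Sum.inr g)) = FreeMonoid.of (Sum.inr g) := by
  unfold reg_end
  erw [FreeMonoid.lift_eval_of]
  exact if_neg hg

theorem reg_reach {A G F : Type} [Group G] [Group F] (π : A → G) (f : G →* F)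
    (S : Submonoid (Monoid.End (FreeMonoid (A ⊕ F)))) (hS : ∀ x, reg_step π f x ∈ S)
    (w : FreeMonoid A) :
    ∃ φ ∈ S, (∀ y : A, φ (FreeMonoid.of (Sum.inl y)) = FreeMonoid.of (Sum.inl y)) ∧
      ∀ g : F, φ (FreeMonoid.of (Sum.inr g)) = FreeMonoid.map Sum.inl w *
        FreeMonoid.of (Sum.inr (g * f (FreeMonoid.lift π w))) := by
  induction w using FreeMonoid.inductionOn' with
  | one => exact ⟨1, S.one_mem, fun _ => rfl, fun g => by simp⟩
  | of_mul b a ih =>
    obtain ⟨φ, hφ, h1, h2⟩ := ih
    refine ⟨φ * reg_step π f b, S.mul_mem hφ (hS b), fun y => ?_, fun g => ?_⟩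
    · rw [Monoid.End.coe_mul, Function.comp_apply, reg_step_inl, h1]
    · rw [Monoid.End.coe_mul, Function.comp_apply, reg_step_inr, map_mul, h1, h2]
      simp [mul_assoc]

theorem p_REG :
    S_REG := by
  intro A G F _ _ _ _ π f U
  have hfin : (insert (reg_end A U) (Set.range (reg_step π f))).Finite :=
    (Set.finite_range _).insert _
  refine ⟨A ⊕ F, inferInstance, Function.Embedding.inl, FreeMonoid.of (Sum.inr 1),
    hfin.toFinset, fun w => ?_⟩
  rw [Set.Finite.coe_toFinset]
  have hι : ((Function.Embedding.inl : A ↪ A ⊕ F) : A → A ⊕ F) = Sum.inl := rfl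
  rw [hι]
  constructor
  · intro hw
    obtain ⟨φ, hφ, -, h2⟩ := reg_reach π f
      (Submonoid.closure (insert (reg_end A U) (Set.range (reg_step π f))))
      (fun x => Submonoid.subset_closure (Set.mem_insert_of_mem _ ⟨x, rfl⟩)) w
    refine ⟨reg_end A U * φ,
      Submonoid.mul_mem _ (Submonoid.subset_closure (Set.mem_insert _ _)) hφ, ?_⟩
    have hw' : 1 * f (FreeMonoid.lift π w) ∈ U := by rw [one_mul]; exact hw
    rw [Monoid.End.coe_mul, Function.comp_apply, h2, map_mul, reg_fix _ (reg_end_inl U),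
      reg_end_mem U hw', mul_one]
  · rintro ⟨φ, hφ, hw⟩
    have key : (∃ v : FreeMonoid A, φ (FreeMonoid.of (Sum.inr 1)) = FreeMonoid.map Sum.inl v *
        FreeMonoid.of (Sum.inr (f (FreeMonoid.lift π v)))) ∨
        ∃ v : FreeMonoid A, φ (FreeMonoid.of (Sum.inr 1)) = FreeMonoid.map Sum.inl v ∧
          f (FreeMonoid.lift π v) ∈ U := by
      clear hw
      induction hφ using Submonoid.closure_induction_left with
      | one => exact Or.inl ⟨1, by simp⟩
      | mul_left x hx y hy ih =>
        rw [Monoid.End.coe_mul, Function.comp_apply]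
        have hfix : ∀ v : FreeMonoid A,
            x (FreeMonoid.map Sum.inl v) = FreeMonoid.map Sum.inl v := by
          rcases hx with rfl | ⟨a, rfl⟩
          · exact reg_fix _ (reg_end_inl U)
          · exact reg_fix _ (reg_step_inl π f a)
        rcases ih with ⟨v, hv⟩ | ⟨v, hv, hU⟩
        · rw [hv, map_mul, hfix]
          rcases hx with rfl | ⟨a, rfl⟩
          · by_cases hg : f (FreeMonoid.lift π v) ∈ U
            · exact Or.inr ⟨v, by rw [reg_end_mem U hg, mul_one], hg⟩
            · exact Or.inl ⟨v, by rw [reg_end_not_mem U hg]⟩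
          · refine Or.inl ⟨v * FreeMonoid.of a, ?_⟩
            rw [reg_step_inr]
            simp [mul_assoc]
        · exact Or.inr ⟨v, by rw [hv, hfix], hU⟩
    rcases key with ⟨v, hv⟩ | ⟨v, hv, hU⟩
    · exfalso
      have h1 : (Sum.inr (f (FreeMonoid.lift π v)) : A ⊕ F) ∈ FreeMonoid.map Sum.inl w := by
        rw [← hw, hv]
        exact FreeMonoid.mem_mul.2 (Or.inr FreeMonoid.mem_of_self)
      obtain ⟨a, -, ha⟩ := FreeMonoid.mem_map.1 h1
      exact Sum.inl_ne_inr ha
    · have h1 : FreeMonoid.map (Sum.inl : A → A ⊕ F) v = FreeMonoid.map Sum.inl w :=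
        hv.symm.trans hw
      have h2 : v = w := by
        have h3 := congrArg (FreeMonoid.toList) h1
        rw [FreeMonoid.toList_map, FreeMonoid.toList_map] at h3
        exact FreeMonoid.toList.injective
          ((List.map_injective_iff.2 Sum.inl_injective) h3)
      rw [← h2]
      exact hU

end Pool.Agent.P.MP_f04817_lc.Ed
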